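import Mathlib

set_option autoImplicit false

open Set

namespace Pool.Agent.Lib.MP_17bc6d_lc

universe u

variable {V : Type u} {k : ℕ}

/-- Pigeonhole: an uncountable set has an uncountable fibre of a map into a countable type. -/
theorem exists_uncountable_fiber {β : Type*} [Countable β] (Y : Set V) (hY : ¬ Y.Countable)
    (f : V → β) : ∃ b, ¬ {x | x ∈ Y ∧ f x = b}.Countable := by
  by_contra h
  push Not at h
  apply hY
  have : Y = ⋃ b, {x | x ∈ Y ∧ f x = b} := by
    ext x
    simp
  rw [this]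
  exact countable_iUnion h

/-- If every point of `⋃ Z n` has only countably many neighbours (pairs of nonzero colour) in each
`Z m`, then there are uncountable `H n ⊆ Z n` whose union is homogeneous for colour `0`. -/
theorem exists_indep (c : V → V → Fin (k + 1)) (symm : ∀ x y, c x y = c y x)
    (diag : ∀ x, c x x = 0) (Z : ℕ → Set V) (hZ : ∀ n, ¬ (Z n).Countable)
    (hN : ∀ m n, ∀ x ∈ Z m, ({y | c x y ≠ 0} ∩ Z n).Countable) :
    ∃ H : ℕ → Set V, (∀ n, H n ⊆ Z n) ∧ (∀ n, ¬ (H n).Countable) ∧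
      ∀ m n, ∀ x ∈ H m, ∀ y ∈ H n, c x y = 0 := by
  classical
  let T : Set (ℕ → V) := {s | (∀ n, s n ∈ Z n) ∧ ∀ m n, c (s m) (s n) = 0}
  let R : (ℕ → V) → (ℕ → V) → Prop := fun s t => (∀ m n, c (s m) (t n) = 0) ∧ ∀ n, s n ≠ t n
  obtain ⟨F, hF⟩ : ∃ F, Maximal (fun F : Set (ℕ → V) => F ⊆ T ∧ F.Pairwise R) F := by
    apply zorn_subset
    intro C hC hchain
    refine ⟨⋃₀ C, ⟨?_, ?_⟩, fun s hs => subset_sUnion_of_mem hs⟩
    · exact sUnion_subset fun s hs => (hC hs).1
    · rw [Set.pairwise_sUnion hchain.directedOn]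
      exact fun s hs => (hC hs).2
  have hFT : F ⊆ T := hF.1.1
  have hFR : F.Pairwise R := hF.1.2
  have hFunc : ¬ F.Countable := by
    intro hc
    -- the set of used points
    let P : Set V := ⋃ s ∈ F, range s
    have hP : P.Countable := hc.biUnion fun s _ => countable_range s
    have hPZ : ∀ x ∈ P, ∃ m, x ∈ Z m := by
      intro x hx
      simp only [P, mem_iUnion, mem_range] at hx
      obtain ⟨s, hs, n, rfl⟩ := hx
      exact ⟨n, (hFT hs).1 n⟩
    -- extension property
    have hext : ∀ (n : ℕ) (G : Finset V), ∃ y, (∀ x ∈ G, ∃ m, x ∈ Z m) →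
        y ∈ Z n ∧ y ∉ P ∧ (∀ x ∈ P, c x y = 0) ∧ (∀ x ∈ G, c x y = 0) := by
      intro n G
      have hne : (Z n).Nonempty := by
        by_contra h
        rw [not_nonempty_iff_eq_empty] at h
        exact hZ n (h ▸ countable_empty)
      by_cases hG : ∀ x ∈ G, ∃ m, x ∈ Z m
      · have hcount : (P ∪ (⋃ x ∈ P, ({y | c x y ≠ 0} ∩ Z n)) ∪
            (⋃ x ∈ (G : Set V), ({y | c x y ≠ 0} ∩ Z n))).Countable := by
          refine ((hP.union ?_).union ?_)
          · exact hP.biUnion fun x hx => by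
              obtain ⟨m, hm⟩ := hPZ x hx
              exact hN m n x hm
          · exact G.countable_toSet.biUnion fun x hx => by
              obtain ⟨m, hm⟩ := hG x hx
              exact hN m n x hm
        obtain ⟨y, hy, hy'⟩ : ∃ y ∈ Z n, y ∉ (P ∪ (⋃ x ∈ P, ({y | c x y ≠ 0} ∩ Z n)) ∪
            (⋃ x ∈ (G : Set V), ({y | c x y ≠ 0} ∩ Z n))) := by
          by_contra hcon
          push Not at hcon
          exact hZ n (hcount.mono hcon)
        refine ⟨y, fun _ => ⟨hy, ?_, ?_, ?_⟩⟩
        · intro h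
          exact hy' (Or.inl (Or.inl h))
        · intro x hx
          by_contra h
          exact hy' (Or.inl (Or.inr (mem_biUnion hx ⟨h, hy⟩)))
        · intro x hx
          by_contra h
          exact hy' (Or.inr (mem_biUnion (Finset.mem_coe.2 hx) ⟨h, hy⟩))
      · exact ⟨hne.some, fun h => absurd h hG⟩
    choose g hg using hext
    let Fs : ℕ → Finset V := fun n => Nat.rec ∅ (fun n G => insert (g n G) G) n
    have hFs : ∀ n, Fs (n + 1) = insert (g n (Fs n)) (Fs n) := fun n => rfl
    have hgood : ∀ n, ∀ x ∈ Fs n, ∃ m, x ∈ Z m := by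
      intro n
      induction n with
      | zero => intro x hx; simp [Fs] at hx
      | succ n ih =>
        intro x hx
        rw [hFs, Finset.mem_insert] at hx
        rcases hx with rfl | hx
        · exact ⟨n, (hg n (Fs n) ih).1⟩
        · exact ih x hx
    let s : ℕ → V := fun n => g n (Fs n)
    have hs : ∀ n, s n ∈ Z n ∧ s n ∉ P ∧ (∀ x ∈ P, c x (s n) = 0) ∧ (∀ x ∈ Fs n, c x (s n) = 0) :=
      fun n => hg n (Fs n) (hgood n)
    have hmem : ∀ m n, m < n → s m ∈ Fs n := by
      intro m n hmn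
      induction n with
      | zero => omega
      | succ n ih =>
        rw [hFs, Finset.mem_insert]
        rcases Nat.lt_succ_iff_lt_or_eq.1 hmn with h | h
        · exact Or.inr (ih h)
        · left
          rw [h]
    have hsT : s ∈ T := by
      refine ⟨fun n => (hs n).1, fun m n => ?_⟩
      rcases lt_trichotomy m n with h | h | h
      · exact (hs n).2.2.2 _ (hmem m n h)
      · rw [h]; exact diag _
      · rw [symm]; exact (hs m).2.2.2 _ (hmem n m h)
    have hsF : s ∉ F := by
      intro h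
      apply (hs 0).2.1
      simp only [P, mem_iUnion, mem_range]
      exact ⟨s, h, 0, rfl⟩
    have hins : (insert s F) ⊆ F := by
      apply hF.2 _ (subset_insert s F)
      refine ⟨insert_subset hsT hFT, ?_⟩
      apply hFR.insert
      intro t ht _
      have htP : ∀ m, t m ∈ P := by
        intro m
        simp only [P, mem_iUnion, mem_range]
        exact ⟨t, ht, m, rfl⟩
      refine ⟨⟨fun m n => ?_, fun n h => ?_⟩, ⟨fun m n => ?_, fun n h => ?_⟩⟩
      · rw [symm]; exact (hs m).2.2.1 _ (htP n)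
      · exact (hs n).2.1 (h ▸ htP n)
      · exact (hs n).2.2.1 _ (htP m)
      · exact (hs n).2.1 (h ▸ htP n)
    exact hsF (hins (mem_insert s F))
  refine ⟨fun n => (fun s : ℕ → V => s n) '' F, ?_, ?_, ?_⟩
  · rintro n _ ⟨s, hs, rfl⟩
    exact (hFT hs).1 n
  · intro n hc
    apply hFunc
    apply countable_of_injective_of_countable_image _ hc
    intro s hs t ht hst
    by_contra hne
    exact (hFR hs ht hne).2 n hst
  · rintro m n _ ⟨s, hs, rfl⟩ _ ⟨t, ht, rfl⟩
    by_cases hst : s = t
    · subst hst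
      exact (hFT hs).2 m n
    · exact (hFR hs ht hst).1 m n

/-- Every uncountable set, all of whose pairs are coloured by `0` or by a colour of `D`, no
nonzero colour having a monochromatic triangle, has an uncountable `0`-homogeneous subset. -/
theorem exists_homog_aux (c : V → V → Fin (k + 1)) (symm : ∀ x y, c x y = c y x)
    (diag : ∀ x, c x x = 0)
    (tri : ∀ i, i ≠ 0 → ∀ x y z, c x y = i → c x z = i → c y z = i → False)
    (d : ℕ) : ∀ (D : Finset (Fin (k + 1))), D.card = d → ∀ X : Set V, ¬ X.Countable →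
      (∀ x ∈ X, ∀ y ∈ X, c x y ≠ 0 → c x y ∈ D) →
      ∃ H ⊆ X, ¬ H.Countable ∧ ∀ x ∈ H, ∀ y ∈ H, c x y = 0 := by
  classical
  induction d with
  | zero =>
    intro D hD X hX hcol
    rw [Finset.card_eq_zero] at hD
    subst hD
    refine ⟨X, Subset.rfl, hX, fun x hx y hy => ?_⟩
    by_contra h
    simpa using hcol x hx y hy h
  | succ d ih =>
    intro D hD X hX hcol
    by_cases h : ∃ x ∈ X, ∃ i ∈ D, i ≠ 0 ∧ ¬ ({y | c x y = i} ∩ X).Countable
    · obtain ⟨x, hx, i, hi, hi0, hunc⟩ := h
      obtain ⟨H, hH, hHu, hHh⟩ := ih (D.erase i) (by rw [Finset.card_erase_of_mem hi]; omega)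
        ({y | c x y = i} ∩ X) hunc (by
          intro y hy z hz hyz
          rw [Finset.mem_erase]
          refine ⟨fun hc => ?_, hcol y hy.2 z hz.2 hyz⟩
          exact tri i hi0 x y z hy.1 hz.1 hc)
      exact ⟨H, hH.trans inter_subset_right, hHu, hHh⟩
    · push Not at h
      obtain ⟨H, hH, hHu, hHh⟩ := exists_indep c symm diag (fun _ => X) (fun _ => hX) (by
        intro _ _ x hx
        have : ({y | c x y ≠ 0} ∩ X) ⊆ ⋃ i ∈ {i : Fin (k + 1) | i ∈ D ∧ i ≠ 0},
            ({y | c x y = i} ∩ X) := by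
          intro y hy
          rw [mem_iUnion₂]
          exact ⟨c x y, ⟨hcol x hx y hy.2 hy.1, hy.1⟩, rfl, hy.2⟩
        refine Countable.mono this ?_
        refine (Set.toFinite _).countable.biUnion fun i hi => ?_
        exact h x hx i hi.1 hi.2)
      exact ⟨H 0, hH 0, hHu 0, fun x hx y hy => hHh 0 0 x hx y hy⟩

theorem exists_homog (c : V → V → Fin (k + 1)) (symm : ∀ x y, c x y = c y x)
    (diag : ∀ x, c x x = 0)
    (tri : ∀ i, i ≠ 0 → ∀ x y z, c x y = i → c x z = i → c y z = i → False)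
    (X : Set V) (hX : ¬ X.Countable) :
    ∃ H ⊆ X, ¬ H.Countable ∧ ∀ x ∈ H, ∀ y ∈ H, c x y = 0 :=
  exists_homog_aux c symm diag tri _ Finset.univ rfl X hX fun _ _ _ _ _ => Finset.mem_univ _

end Pool.Agent.Lib.MP_17bc6d_lc
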