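import Mathlib
import Pool.Agent.Lib.MP_17bc6d_lc.Indep

set_option autoImplicit false

open Set

namespace Pool.Agent.Lib.MP_17bc6d_lc

universe u

/-- A colouring of the pairs of a set `V` split into blocks `b ⁻¹ {w}` (`w : W`), where `W` looks
like `ω₁`, every block is uncountable and homogeneous for colour `0`, and no nonzero colour has a
monochromatic triangle. `r` lists `V` in countable pieces. -/
structure Sys (k : ℕ) (W V : Type u) [LinearOrder W] [WellFoundedLT W] where
  b : V → W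
  r : V → W
  c : V → V → Fin (k + 1)
  symm : ∀ x y, c x y = c y x
  tri : ∀ i, i ≠ 0 → ∀ x y z, c x y = i → c x z = i → c y z = i → False
  hb : ∀ x y, b x = b y → c x y = 0
  cnt : ∀ w : W, (Iic w).Countable
  unc : ¬ (univ : Set W).Countable
  cr : ∀ w, {v | r v ≤ w}.Countable
  hblk : ∀ w, ¬ {v | b v = w}.Countable

namespace Sys

variable {k : ℕ} {W V : Type u} [LinearOrder W] [WellFoundedLT W] (S : Sys k W V)

/-- The neighbours of `x` in colour `i`. -/
def N (i : Fin (k + 1)) (x : V) : Set V := {y | S.c x y = i}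

/-- The block of `w`. -/
def blk (w : W) : Set V := {v | S.b v = w}

/-- The nonzero colours in which `x` has uncountably many neighbours in `X`. -/
def typ (x : V) (X : Set V) : Set (Fin (k + 1)) := {i | i ≠ 0 ∧ ¬ (S.N i x ∩ X).Countable}

/-- `Y` is a `C`-sequence. -/
def CSeq (C : Set (Fin (k + 1))) (Y : ℕ → Set V) : Prop :=
  (∃ a : ℕ → W, StrictMono a ∧ ∀ n, Y n ⊆ S.blk (a n)) ∧ (∀ n, ¬ (Y n).Countable) ∧
  ∀ m n, m < n → ∀ x ∈ Y n, S.typ x (Y m) ⊆ C

/-- There is a `0`-homogeneous set of type `ω₁ · ω`. -/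
def Good : Prop := ∃ (a : ℕ → W) (H : ℕ → Set V), StrictMono a ∧ (∀ n, H n ⊆ S.blk (a n)) ∧
  (∀ n, ¬ (H n).Countable) ∧ ∀ m n, ∀ x ∈ H m, ∀ y ∈ H n, S.c x y = 0

theorem diag (x : V) : S.c x x = 0 := S.hb x x rfl

theorem typ_mono (x : V) {X Y : Set V} (h : X ⊆ Y) : S.typ x X ⊆ S.typ x Y := by
  intro i hi
  exact ⟨hi.1, fun hc => hi.2 (hc.mono (inter_subset_inter_right _ h))⟩

theorem CSeq.mono_col {C D : Set (Fin (k + 1))} (h : C ⊆ D) {Y : ℕ → Set V} (hY : S.CSeq C Y) :
    S.CSeq D Y :=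
  ⟨hY.1, hY.2.1, fun m n hmn x hx => (hY.2.2 m n hmn x hx).trans h⟩

theorem CSeq.mono {C : Set (Fin (k + 1))} {Y Z : ℕ → Set V} (hY : S.CSeq C Y)
    (hZ : ∀ n, Z n ⊆ Y n) (hZu : ∀ n, ¬ (Z n).Countable) : S.CSeq C Z := by
  obtain ⟨a, ha, hYa⟩ := hY.1
  exact ⟨⟨a, ha, fun n => (hZ n).trans (hYa n)⟩, hZu, fun m n hmn x hx =>
    (S.typ_mono x (hZ m)).trans (hY.2.2 m n hmn x (hZ n hx))⟩

theorem CSeq.comp {C : Set (Fin (k + 1))} {Y : ℕ → Set V} (hY : S.CSeq C Y) {φ : ℕ → ℕ}
    (hφ : StrictMono φ) : S.CSeq C (fun n => Y (φ n)) := by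
  obtain ⟨a, ha, hYa⟩ := hY.1
  exact ⟨⟨a ∘ φ, ha.comp hφ, fun n => hYa (φ n)⟩, fun n => hY.2.1 _, fun m n hmn x hx =>
    hY.2.2 _ _ (hφ hmn) x hx⟩

/-- The neighbourhood of `x` in `X` is countable if the type of `x` over `X` is empty. -/
theorem countable_of_typ_eq_empty {x : V} {X : Set V} (h : S.typ x X ⊆ ∅) :
    ({y | S.c x y ≠ 0} ∩ X).Countable := by
  have : ({y | S.c x y ≠ 0} ∩ X) ⊆ ⋃ i ∈ {i : Fin (k + 1) | i ≠ 0}, (S.N i x ∩ X) := by
    intro y hy
    rw [mem_iUnion₂]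
    exact ⟨S.c x y, hy.1, rfl, hy.2⟩
  refine Countable.mono this ?_
  refine (Set.toFinite _).countable.biUnion fun i hi => ?_
  by_contra hc
  exact h ⟨hi, hc⟩

/-- Lemma T, auxiliary form: induction on the number of colours used. -/
theorem good_of_CSeq_empty_aux (d : ℕ) : ∀ (D : Finset (Fin (k + 1))), D.card = d →
    ∀ Y : ℕ → Set V, S.CSeq ∅ Y →
      (∀ m n, ∀ x ∈ Y m, ∀ y ∈ Y n, S.c x y ≠ 0 → S.c x y ∈ D) → S.Good := by
  classical
  induction d with
  | zero =>
    intro D hD Y hY hcol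
    rw [Finset.card_eq_zero] at hD
    subst hD
    obtain ⟨⟨a, ha, hYa⟩, hYu, _⟩ := hY
    refine ⟨a, Y, ha, hYa, hYu, fun m n x hx y hy => ?_⟩
    by_contra h
    simpa using hcol m n x hx y hy h
  | succ d ih =>
    intro D hD Y hY hcol
    by_cases h : ∃ m, ∃ x ∈ Y m, ∃ i ∈ D, i ≠ 0 ∧ {n | ¬ (S.N i x ∩ Y n).Countable}.Infinite
    · obtain ⟨m, x, hx, i, hi, hi0, hinf⟩ := h
      obtain ⟨φ, hφ, hφr⟩ : ∃ φ : ℕ → ℕ, StrictMono φ ∧
          ∀ n, φ n ∈ {n | ¬ (S.N i x ∩ Y n).Countable} :=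
        ⟨Nat.nth (· ∈ {n | ¬ (S.N i x ∩ Y n).Countable}), Nat.nth_strictMono hinf,
          fun n => Nat.nth_mem_of_infinite hinf n⟩
      refine ih (D.erase i) (by rw [Finset.card_erase_of_mem hi]; omega)
        (fun n => S.N i x ∩ Y (φ n)) ?_ ?_
      · exact CSeq.mono S (CSeq.comp S hY hφ) (fun n => inter_subset_right) hφr
      · intro p q y hy z hz hyz
        rw [Finset.mem_erase]
        exact ⟨fun hc => S.tri i hi0 x y z hy.1 hz.1 hc, hcol _ _ y hy.2 z hz.2 hyz⟩
    · push Not at h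
      -- finite exceptional sets
      have hfin : ∀ m, ∀ x ∈ Y m, {n | ¬ ({y | S.c x y ≠ 0} ∩ Y n).Countable}.Finite := by
        intro m x hx
        have hsub : {n | ¬ ({y | S.c x y ≠ 0} ∩ Y n).Countable} ⊆
            ⋃ i ∈ {i : Fin (k + 1) | i ∈ D ∧ i ≠ 0}, {n | ¬ (S.N i x ∩ Y n).Countable} := by
          intro n hn
          by_contra hcon
          apply hn
          have : ({y | S.c x y ≠ 0} ∩ Y n) ⊆ ⋃ i ∈ {i : Fin (k + 1) | i ∈ D ∧ i ≠ 0},
              (S.N i x ∩ Y n) := by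
            intro y hy
            rw [mem_iUnion₂]
            exact ⟨S.c x y, ⟨hcol m n x hx y hy.2 hy.1, hy.1⟩, rfl, hy.2⟩
          refine Countable.mono this ?_
          refine (Set.toFinite _).countable.biUnion fun i hi => ?_
          by_contra hc
          exact hcon (mem_biUnion hi hc)
        refine Finite.subset ?_ hsub
        refine (Set.toFinite _).biUnion fun i hi => ?_
        exact h m x hx i hi.1 hi.2
      let f : V → Finset ℕ := fun x =>
        if hx : {n | ¬ ({y | S.c x y ≠ 0} ∩ Y n).Countable}.Finite then hx.toFinset else ∅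
      have hf : ∀ m, ∀ x ∈ Y m, ∀ n, n ∉ f x → ({y | S.c x y ≠ 0} ∩ Y n).Countable := by
        intro m x hx n hn
        simp only [f, dif_pos (hfin m x hx), Finite.mem_toFinset] at hn
        by_contra hc
        exact hn hc
      choose R hR using fun m => exists_uncountable_fiber (Y m) (hY.2.1 m) f
      let ψ : ℕ → ℕ := fun n => (Finset.range (n + 1)).sup fun m => (R m).sup id
      let φ : ℕ → ℕ := fun n => Nat.rec 0 (fun _ p => max p (ψ p) + 1) n
      have hφs : ∀ n, φ (n + 1) = max (φ n) (ψ (φ n)) + 1 := fun n => rfl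
      have hφ : StrictMono φ := strictMono_nat_of_lt_succ fun n => by
        rw [hφs]
        have := le_max_left (φ n) (ψ (φ n))
        omega
      have hψ : ∀ m n, m ≤ n → ∀ p ∈ R m, p ≤ ψ n := by
        intro m n hmn p hp
        calc p ≤ (R m).sup id := Finset.le_sup (f := id) hp
          _ ≤ ψ n := Finset.le_sup (f := fun m => (R m).sup id)
              (Finset.mem_range.2 (Nat.lt_succ_of_le hmn))
      have hφR : ∀ i j, i < j → φ j ∉ R (φ i) := by
        intro i j hij hmem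
        obtain ⟨q, rfl⟩ : ∃ q, j = q + 1 := ⟨j - 1, by omega⟩
        have h1 : φ (q + 1) ≤ ψ (φ q) := hψ (φ i) (φ q) (hφ.monotone (by omega)) _ hmem
        rw [hφs] at h1
        have := le_max_right (φ q) (ψ (φ q))
        omega
      obtain ⟨a, ha, hYa⟩ := hY.1
      let Z : ℕ → Set V := fun j => {x | x ∈ Y (φ j) ∧ f x = R (φ j)}
      have hZY : ∀ j, Z j ⊆ Y (φ j) := fun j x hx => hx.1
      obtain ⟨H, hHZ, hHu, hHh⟩ := exists_indep S.c S.symm S.diag Z (fun j => hR (φ j)) (by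
        intro i j x hx
        rcases lt_trichotomy i j with hij | hij | hij
        · have h1 : φ j ∉ f x := by
            rw [hx.2]
            exact hφR i j hij
          exact (hf _ x hx.1 _ h1).mono (inter_subset_inter_right _ (hZY j))
        · subst hij
          have : {y | S.c x y ≠ 0} ∩ Z i = ∅ := by
            ext y
            simp only [mem_inter_iff, Set.mem_ofPred_eq, mem_empty_iff_false, iff_false, not_and]
            intro hy hyz
            apply hy
            apply S.hb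
            have h1 : S.b x = a (φ i) := hYa (φ i) hx.1
            have h2 : S.b y = a (φ i) := hYa (φ i) hyz.1
            rw [h1, h2]
          rw [this]
          exact countable_empty
        · have h1 := hY.2.2 (φ j) (φ i) (hφ hij) x hx.1
          exact (S.countable_of_typ_eq_empty h1).mono (inter_subset_inter_right _ (hZY j)))
      exact ⟨a ∘ φ, H, ha.comp hφ, fun n => (hHZ n).trans ((hZY n).trans (hYa _)), hHu, hHh⟩

/-- Lemma T: an `∅`-sequence yields a `0`-homogeneous set of type `ω₁ · ω`. -/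
theorem good_of_CSeq_empty {Y : ℕ → Set V} (hY : S.CSeq ∅ Y) : S.Good :=
  S.good_of_CSeq_empty_aux _ Finset.univ rfl Y hY fun _ _ _ _ _ _ _ => Finset.mem_univ _

end Sys

end Pool.Agent.Lib.MP_17bc6d_lc
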