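import Mathlib
import Pool.Agent.Lib.MP_17bc6d_lc.Sys

set_option autoImplicit false

open Set

namespace Pool.Agent.Lib.MP_17bc6d_lc

universe u

namespace Sys

variable {k : ℕ} {W V : Type u} [LinearOrder W] [WellFoundedLT W] (S : Sys k W V)

/-- The least family of sets closed under the operations below, with parameters `≤ w`. -/
inductive Cl (w : W) : Set V → Prop
  | univ : Cl w univ
  | blk (w' : W) : w' ≤ w → Cl w (S.blk w')
  | tail (w' : W) : w' ≤ w → Cl w {v | w' < S.b v}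
  | nbr (v : V) (i : Fin (k + 1)) : S.r v ≤ w → Cl w (S.N i v)
  | inter (X Y : Set V) : Cl w X → Cl w Y → Cl w (X ∩ Y)
  | typ (X : Set V) (T : Set (Fin (k + 1))) : Cl w X → Cl w {x | S.typ x X ⊆ T}

theorem Cl.mono {w w' : W} (h : w ≤ w') {X : Set V} (hX : S.Cl w X) : S.Cl w' X := by
  induction hX with
  | univ => exact Cl.univ
  | blk v hv => exact Cl.blk v (hv.trans h)
  | tail v hv => exact Cl.tail v (hv.trans h)
  | nbr v i hv => exact Cl.nbr v i (hv.trans h)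
  | inter X Y _ _ h1 h2 => exact Cl.inter X Y h1 h2
  | typ X T _ h1 => exact Cl.typ X T h1

theorem countable_Cl (w : W) : {X | S.Cl w X}.Countable := by
  classical
  let B : Set (Set V) := {univ} ∪ (S.blk '' Iic w) ∪ ((fun w' => {v | w' < S.b v}) '' Iic w) ∪
    ⋃ i : Fin (k + 1), (S.N i '' {v | S.r v ≤ w})
  have hB : B.Countable := by
    refine ((((countable_singleton _).union ((S.cnt w).image _)).union
      ((S.cnt w).image _)).union ?_)
    exact countable_iUnion fun i => (S.cr w).image _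
  let F : Set (Set V) → Set (Set V) := fun A =>
    A ∪ image2 (fun X Y => X ∩ Y) A A ∪ ⋃ T : Set (Fin (k + 1)), ((fun X => {x | S.typ x X ⊆ T}) '' A)
  have hF : ∀ A, A.Countable → (F A).Countable := by
    intro A hA
    refine (hA.union (hA.image2 hA _)).union ?_
    exact countable_iUnion fun T => hA.image _
  let G : ℕ → Set (Set V) := fun n => F^[n] B
  have hG : ∀ n, G (n + 1) = F (G n) := fun n => Function.iterate_succ_apply' F n B
  have hGc : ∀ n, (G n).Countable := by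
    intro n
    induction n with
    | zero => exact hB
    | succ n ih => rw [hG]; exact hF _ ih
  have hmono1 : ∀ n, G n ⊆ G (n + 1) := by
    intro n
    rw [hG]
    intro X hX
    exact Or.inl (Or.inl hX)
  have hmono : Monotone G := monotone_nat_of_le_succ hmono1
  refine (countable_iUnion hGc).mono ?_
  intro X hX
  induction hX with
  | univ => exact mem_iUnion.2 ⟨0, Or.inl (Or.inl (Or.inl rfl))⟩
  | blk v hv => exact mem_iUnion.2 ⟨0, Or.inl (Or.inl (Or.inr ⟨v, hv, rfl⟩))⟩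
  | tail v hv => exact mem_iUnion.2 ⟨0, Or.inl (Or.inr ⟨v, hv, rfl⟩)⟩
  | nbr v i hv => exact mem_iUnion.2 ⟨0, Or.inr (mem_iUnion.2 ⟨i, v, hv, rfl⟩)⟩
  | inter X Y _ _ h1 h2 =>
    obtain ⟨m, hm⟩ := mem_iUnion.1 h1
    obtain ⟨n, hn⟩ := mem_iUnion.1 h2
    refine mem_iUnion.2 ⟨max m n + 1, ?_⟩
    rw [hG]
    exact Or.inl (Or.inr ⟨X, hmono (le_max_left m n) hm, Y, hmono (le_max_right m n) hn, rfl⟩)
  | typ X T _ h1 =>
    obtain ⟨m, hm⟩ := mem_iUnion.1 h1
    refine mem_iUnion.2 ⟨m + 1, ?_⟩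
    rw [hG]
    exact Or.inr (mem_iUnion.2 ⟨T, X, hm, rfl⟩)

/-- The countable family of sets with parameters `< δ`. -/
def M (δ : W) : Set (Set V) := {X | ∃ w < δ, S.Cl w X}

include S in
theorem countable_Iio (δ : W) : (Iio δ).Countable := (S.cnt δ).mono Iio_subset_Iic_self

theorem countable_M (δ : W) : (S.M δ).Countable := by
  have : S.M δ = ⋃ w ∈ Iio δ, {X | S.Cl w X} := by
    ext X
    simp only [M, Set.mem_ofPred_eq, mem_iUnion, mem_Iio, exists_prop]
  rw [this]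
  exact (S.countable_Iio δ).biUnion fun w _ => S.countable_Cl w

theorem M_mono {δ δ' : W} (h : δ ≤ δ') : S.M δ ⊆ S.M δ' :=
  fun _ ⟨w, hw, hX⟩ => ⟨w, hw.trans_le h, hX⟩

theorem M_inter {δ : W} {X Y : Set V} (hX : X ∈ S.M δ) (hY : Y ∈ S.M δ) : X ∩ Y ∈ S.M δ := by
  obtain ⟨w, hw, hX⟩ := hX
  obtain ⟨w', hw', hY⟩ := hY
  exact ⟨max w w', max_lt hw hw', Cl.inter _ _ (Cl.mono S (le_max_left _ _) hX)
    (Cl.mono S (le_max_right _ _) hY)⟩

theorem M_typ {δ : W} {X : Set V} (hX : X ∈ S.M δ) (T : Set (Fin (k + 1))) :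
    {x | S.typ x X ⊆ T} ∈ S.M δ := by
  obtain ⟨w, hw, hX⟩ := hX
  exact ⟨w, hw, Cl.typ _ _ hX⟩

theorem M_blk {δ w : W} (h : w < δ) : S.blk w ∈ S.M δ := ⟨w, h, Cl.blk w le_rfl⟩

theorem M_tail {δ w : W} (h : w < δ) : {v | w < S.b v} ∈ S.M δ := ⟨w, h, Cl.tail w le_rfl⟩

theorem M_nbr {δ : W} {v : V} (h : S.r v < δ) (i : Fin (k + 1)) : S.N i v ∈ S.M δ :=
  ⟨_, h, Cl.nbr v i le_rfl⟩

theorem M_univ {δ w : W} (h : w < δ) : (univ : Set V) ∈ S.M δ := ⟨w, h, Cl.univ⟩

include S in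
/-- Countable subsets of `W` are strictly bounded. -/
theorem exists_bound {A : Set W} (hA : A.Countable) : ∃ w, ∀ a ∈ A, a < w := by
  by_contra h
  push Not at h
  apply S.unc
  refine (hA.biUnion (t := fun a _ => Iic a) fun a _ => S.cnt a).mono ?_
  intro w _
  obtain ⟨a, ha, haw⟩ := h w
  exact mem_biUnion ha haw

/-- Closing off under a function. -/
theorem exists_closed (G : Set V → W) (w0 : W) :
    ∃ δ, w0 < δ ∧ ∀ X ∈ S.M δ, G X < δ := by
  classical
  have hstep : ∀ w, ∃ w', w < w' ∧ ∀ X, S.Cl w X → G X < w' := by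
    intro w
    obtain ⟨w', hw'⟩ := S.exists_bound (((S.countable_Cl w).image G).union (countable_singleton w))
    exact ⟨w', hw' w (Or.inr rfl), fun X hX => hw' _ (Or.inl ⟨X, hX, rfl⟩)⟩
  choose s hs hsG using hstep
  let t : ℕ → W := fun n => s^[n] w0
  have ht : ∀ n, t (n + 1) = s (t n) := fun n => Function.iterate_succ_apply' s n w0
  have hne : {w | ∀ n, t n < w}.Nonempty := by
    obtain ⟨w, hw⟩ := S.exists_bound (countable_range t)
    exact ⟨w, fun n => hw _ (mem_range_self n)⟩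
  let δ := WellFounded.min (wellFounded_lt (α := W)) _ hne
  have hδ : ∀ n, t n < δ := WellFounded.min_mem (wellFounded_lt (α := W)) _ hne
  refine ⟨δ, hδ 0, ?_⟩
  rintro X ⟨w, hw, hX⟩
  have : ∃ n, w ≤ t n := by
    by_contra h
    push Not at h
    exact WellFounded.not_lt_min (wellFounded_lt (α := W)) {w | ∀ n, t n < w} (x := w) h hw
  obtain ⟨n, hn⟩ := this
  have h1 := hsG (t n) X (Cl.mono S hn hX)
  rw [← ht] at h1
  exact h1.trans (hδ (n + 1))

/-- A late point. -/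
def Star (z : V) : Prop := ∀ E ∈ S.M (S.b z), z ∈ E → ∃ α < S.b z, ¬ (E ∩ S.blk α).Countable

theorem exists_star (G : Set V → W) (w0 : W) :
    ∃ z, w0 < S.b z ∧ S.Star z ∧ ∀ X ∈ S.M (S.b z), G X < S.b z := by
  classical
  let G2 : Set V → W := fun E =>
    if h : ∃ α, ¬ (E ∩ S.blk α).Countable then h.choose else w0
  obtain ⟨δ, hδ, hG⟩ := S.exists_closed (fun X => max (G X) (G2 X)) w0
  have hc : (⋃ E ∈ {E | E ∈ S.M δ ∧ (E ∩ S.blk δ).Countable}, (E ∩ S.blk δ)).Countable := by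
    refine ((S.countable_M δ).mono fun E hE => hE.1).biUnion fun E hE => hE.2
  obtain ⟨z, hz, hz'⟩ : ∃ z ∈ S.blk δ,
      z ∉ ⋃ E ∈ {E | E ∈ S.M δ ∧ (E ∩ S.blk δ).Countable}, (E ∩ S.blk δ) := by
    by_contra h
    push Not at h
    exact S.hblk δ (hc.mono h)
  have hbz : S.b z = δ := hz
  refine ⟨z, by rw [hbz]; exact hδ, ?_, ?_⟩
  · intro E hE hzE
    rw [hbz] at hE ⊢
    have h1 : ¬ (E ∩ S.blk δ).Countable := by
      intro hcon
      exact hz' (mem_biUnion (show E ∈ {E | E ∈ S.M δ ∧ (E ∩ S.blk δ).Countable} from ⟨hE, hcon⟩)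
        ⟨hzE, hz⟩)
    have hGE := hG E hE
    simp only [max_lt_iff] at hGE
    have h2 : ∃ α, ¬ (E ∩ S.blk α).Countable := ⟨δ, h1⟩
    refine ⟨G2 E, hGE.2, ?_⟩
    simp only [G2, dif_pos h2]
    exact h2.choose_spec
  · intro X hX
    rw [hbz] at hX ⊢
    exact (le_max_left _ _).trans_lt (hG X hX)

end Sys

end Pool.Agent.Lib.MP_17bc6d_lc
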