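import Mathlib

set_option autoImplicit false
open Classical

namespace Pool.Agent.MP_17bc6d_lc

variable {V ι : Type*} {k : ℕ}

/-- the `i`-neighbours of `v` in other blocks -/
def N (b : V → ι) (c : V → V → Fin (k + 1)) (i : Fin (k + 1)) (v : V) : Set V :=
  {w | b v ≠ b w ∧ c v w = i}

/-- a region: an uncountable subset of a block -/
def Region (b : V → ι) (A : Set V) : Prop := ¬ A.Countable ∧ ∃ ξ, A ⊆ b ⁻¹' {ξ}

/-- large sets: uncountably many blocks are met in an uncountable set -/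
def Large (b : V → ι) (P : Set V) : Prop := ¬ {ξ | ¬ (P ∩ b ⁻¹' {ξ}).Countable}.Countable

/-- the set of nonzero colours in which some element of `Y` is heavy on `A` -/
noncomputable def U (b : V → ι) (c : V → V → Fin (k + 1)) (Y : Finset V) (A : Set V) :
    Finset (Fin (k + 1)) :=
  Finset.univ.filter (fun i => i ≠ 0 ∧ ∃ y ∈ Y, ¬ (N b c i y ∩ A).Countable)

/-- the property `E(P, v)` -/
def E (b : V → ι) (c : V → V → Fin (k + 1)) (P : Set V) (v : ℕ) : Prop :=
  ∀ 𝒜 : Set (Set V), 𝒜.Countable → (∀ A ∈ 𝒜, Region b A ∧ A ⊆ P) → ∀ Z : Set V, ¬ Large b Z →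
    ∃ Y : Finset V, (↑Y : Set V) ⊆ P \ Z ∧ ∀ A ∈ 𝒜, v ≤ (U b c Y A).card

/-- cutting a set -/
def cut (b : V → ι) (c : V → V → Fin (k + 1)) (P A : Set V) (D : Finset (Fin (k + 1))) : Set V :=
  {u | u ∈ P ∧ (∀ a ∈ A, b a ≠ b u) ∧ ∀ i, i ≠ 0 → i ∉ D → (N b c i u ∩ A).Countable}

theorem Large.mono {b : V → ι} {P Q : Set V} (h : P ⊆ Q) (hP : Large b P) : Large b Q := by
  intro hQ
  apply hP
  refine hQ.mono ?_
  intro ξ hξ hc
  exact hξ (hc.mono (Set.inter_subset_inter_left _ h))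

theorem not_large_sUnion {b : V → ι} {𝒵 : Set (Set V)} (h𝒵 : 𝒵.Countable)
    (h : ∀ Z ∈ 𝒵, ¬ Large b Z) : ¬ Large b (⋃₀ 𝒵) := by
  intro hL
  apply hL
  have : {ξ | ¬ (⋃₀ 𝒵 ∩ b ⁻¹' {ξ}).Countable} ⊆
      ⋃ Z ∈ 𝒵, {ξ | ¬ (Z ∩ b ⁻¹' {ξ}).Countable} := by
    intro ξ hξ
    by_contra hcon
    apply hξ
    have h2 : (⋃₀ 𝒵 ∩ b ⁻¹' {ξ}) = ⋃ Z ∈ 𝒵, (Z ∩ b ⁻¹' {ξ}) := by
      ext x
      simp only [Set.mem_inter_iff, Set.mem_sUnion, Set.mem_preimage, Set.mem_singleton_iff,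
        Set.mem_iUnion, exists_prop]
      tauto
    rw [h2]
    refine h𝒵.biUnion ?_
    intro Z hZ
    by_contra hc
    apply hcon
    simp only [Set.mem_iUnion]
    exact ⟨Z, hZ, hc⟩
  refine Set.Countable.mono this ?_
  refine h𝒵.biUnion ?_
  intro Z hZ
  have := h Z hZ
  unfold Large at this
  push Not at this
  exact this

theorem Large.region {b : V → ι} {P : Set V} (hP : Large b P) :
    ∃ A, Region b A ∧ A ⊆ P := by
  have : {ξ | ¬ (P ∩ b ⁻¹' {ξ}).Countable}.Nonempty := by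
    rw [Set.nonempty_iff_ne_empty]
    intro h
    apply hP
    rw [h]
    exact Set.countable_empty
  obtain ⟨ξ, hξ⟩ := this
  exact ⟨P ∩ b ⁻¹' {ξ}, ⟨hξ, ξ, Set.inter_subset_right⟩, Set.inter_subset_left⟩

theorem not_large_block {b : V → ι} {A : Set V} (hA : Region b A) :
    ¬ Large b {u | ∃ a ∈ A, b a = b u} := by
  obtain ⟨_, ξ, hξ⟩ := hA
  intro hL
  apply hL
  refine (Set.countable_singleton ξ).mono ?_
  intro η hη
  by_contra hne
  apply hη
  have : {u | ∃ a ∈ A, b a = b u} ∩ b ⁻¹' {η} = ∅ := by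
    ext x
    simp only [Set.mem_inter_iff, Set.mem_preimage, Set.mem_singleton_iff,
      Set.mem_empty_iff_false, iff_false]
    rintro ⟨⟨a, ha, hab⟩, hx⟩
    apply hne
    have := hξ ha
    simp only [Set.mem_preimage, Set.mem_singleton_iff] at this
    simp only [Set.mem_singleton_iff]
    rw [← hx, ← hab, this]
  rw [this]
  exact Set.countable_empty

theorem exists_max {b : V → ι} {c : V → V → Fin (k + 1)} {P : Set V} (hP : Large b P) :
    ∃ v P₀, Large b P₀ ∧ P₀ ⊆ P ∧ E b c P₀ v ∧ ∀ Q, Large b Q → Q ⊆ P → ¬ E b c Q (v + 1) := by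
  by_contra hcon
  push Not at hcon
  have key : ∀ v : ℕ, ∃ P₀, Large b P₀ ∧ P₀ ⊆ P ∧ E b c P₀ v := by
    intro v
    induction v with
    | zero =>
      refine ⟨P, hP, le_rfl, ?_⟩
      intro 𝒜 _ _ Z _
      exact ⟨∅, by simp, fun A _ => Nat.zero_le _⟩
    | succ v ih =>
      obtain ⟨P₀, h1, h2, h3⟩ := ih
      obtain ⟨Q, h4, h5, h6⟩ := hcon v P₀ h1 h2 h3
      exact ⟨Q, h4, h5, h6⟩
  obtain ⟨P₀, h1, h2, h3⟩ := key (k + 2)
  obtain ⟨A, hA, hAP⟩ := h1.region
  obtain ⟨Y, hY, hY2⟩ := h3 {A} (Set.countable_singleton A)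
    (by intro B hB; rw [Set.mem_singleton_iff] at hB; subst hB; exact ⟨hA, hAP⟩) ∅
    (by
      intro h
      apply h
      simp)
  have h4 := hY2 A rfl
  have h5 : (U b c Y A).card ≤ k + 1 := by
    have := Finset.card_le_univ (U b c Y A)
    simpa using this
  omega

/-- the region cut out by a finite set of (colour, vertex) pairs -/
def dom (b : V → ι) (c : V → V → Fin (k + 1)) (A : Set V) (J : Finset (Fin (k + 1) × V)) : Set V :=
  {x | x ∈ A ∧ ∀ p ∈ J, x ∈ N b c p.1 p.2}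

theorem greedy {b : V → ι} {c : V → V → Fin (k + 1)} {P₀ Z₀ : Set V} {v : ℕ} (hE : E b c P₀ v)
    (hZ₀ : ¬ Large b Z₀) (j : ℕ) (hj : j ≤ v) :
    ∀ R : Set (Set V), R.Countable → (∀ A ∈ R, Region b A ∧ A ⊆ P₀) →
      ∃ Y : Finset V, (↑Y : Set V) ⊆ P₀ \ Z₀ ∧ ∀ A ∈ R, ∃ J : Finset (Fin (k + 1) × V),
        (∀ p ∈ J, p.1 ≠ 0 ∧ p.2 ∈ Y) ∧ (J.image Prod.fst).card = j ∧ ¬ (dom b c A J).Countable := by
  induction j with
  | zero =>
    intro R hR hR2
    refine ⟨∅, by simp, ?_⟩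
    intro A hA
    refine ⟨∅, by simp, by simp, ?_⟩
    have : dom b c A ∅ = A := by
      ext x; simp [dom]
    rw [this]
    exact (hR2 A hA).1.1
  | succ j ih =>
    intro R hR hR2
    obtain ⟨Y₁, hY₁, hY₁2⟩ := ih (by omega) R hR hR2
    -- the new family
    set R' : Set (Set V) := {B | ∃ A ∈ R, ∃ J ∈ ((Finset.univ : Finset (Fin (k+1))) ×ˢ Y₁).powerset,
      B = dom b c A J ∧ ¬ B.Countable} with hR'
    have hR'c : R'.Countable := by
      have : R' ⊆ ⋃ A ∈ R, ⋃ J ∈ (((Finset.univ : Finset (Fin (k+1))) ×ˢ Y₁).powerset : Set _),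
          {dom b c A J} := by
        rintro B ⟨A, hA, J, hJ, hB, _⟩
        simp only [Set.mem_iUnion, Set.mem_singleton_iff]
        exact ⟨A, hA, J, hJ, hB⟩
      refine Set.Countable.mono this ?_
      refine hR.biUnion ?_
      intro A _
      refine Set.Countable.biUnion ?_ ?_
      · exact Finset.countable_toSet _
      · intro J _
        exact Set.countable_singleton _
    have hR'2 : ∀ A ∈ R', Region b A ∧ A ⊆ P₀ := by
      rintro B ⟨A, hA, J, hJ, hB, hBc⟩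
      have hsub : B ⊆ A := by
        rw [hB]
        intro x hx
        exact hx.1
      obtain ⟨⟨_, ξ, hξ⟩, hAP⟩ := hR2 A hA
      exact ⟨⟨hBc, ξ, hsub.trans hξ⟩, hsub.trans hAP⟩
    obtain ⟨Y₂, hY₂, hY₂2⟩ := hE R' hR'c hR'2 Z₀ hZ₀
    refine ⟨Y₁ ∪ Y₂, ?_, ?_⟩
    · rw [Finset.coe_union]
      exact Set.union_subset hY₁ hY₂
    · intro A hA
      obtain ⟨J, hJ1, hJ2, hJ3⟩ := hY₁2 A hA
      have hmem : dom b c A J ∈ R' := by
        refine ⟨A, hA, J, ?_, rfl, hJ3⟩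
        rw [Finset.mem_powerset]
        intro p hp
        rw [Finset.mem_product]
        exact ⟨Finset.mem_univ _, (hJ1 p hp).2⟩
      have hcard := hY₂2 _ hmem
      -- a new colour
      have hex : ∃ i ∈ U b c Y₂ (dom b c A J), i ∉ J.image Prod.fst := by
        by_contra hno
        push Not at hno
        have := Finset.card_le_card hno
        omega
      obtain ⟨i, hi, hiJ⟩ := hex
      simp only [U, Finset.mem_filter, Finset.mem_univ, true_and] at hi
      obtain ⟨hi0, y, hy, hyN⟩ := hi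
      refine ⟨insert (i, y) J, ?_, ?_, ?_⟩
      · intro p hp
        rw [Finset.mem_insert] at hp
        rcases hp with rfl | hp
        · exact ⟨hi0, Finset.mem_union_right _ hy⟩
        · exact ⟨(hJ1 p hp).1, Finset.mem_union_left _ (hJ1 p hp).2⟩
      · rw [Finset.image_insert, Finset.card_insert_of_notMem hiJ, hJ2]
      · intro hc
        apply hyN
        refine hc.mono ?_
        rintro x ⟨hx1, hx2⟩
        refine ⟨hx2.1, ?_⟩
        intro p hp
        rw [Finset.mem_insert] at hp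
        rcases hp with rfl | hp
        · exact hx1
        · exact hx2.2 p hp

end Pool.Agent.MP_17bc6d_lc
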