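import Pool.Agent.Lib.MP_17bc6d_lc.Light

set_option autoImplicit false
open Classical

namespace Pool.Agent.MP_17bc6d_lc

section general
variable {V ι : Type*} {k : ℕ}

theorem innerLight {c : V → V → Fin (k + 1)} (htri : NoTri (id : V → V) c) (s : ℕ) :
    ∀ (S : Finset (Fin (k + 1))) (A : Set V), S.card ≤ s → ¬ A.Countable →
      (∀ x ∈ A, ∀ y ∈ A, x ≠ y → c x y = 0 ∨ c x y ∈ S) →
      ∃ A' ⊆ A, ¬ A'.Countable ∧ ∀ w ∈ A', ∀ i, i ≠ 0 → (N (id : V → V) c i w ∩ A').Countable := by
  induction s with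
  | zero =>
    intro S A hS hA hcol
    have hSe : S = ∅ := by
      rw [← Finset.card_eq_zero]; omega
    refine ⟨A, le_rfl, hA, ?_⟩
    intro w hw i hi
    have : N (id : V → V) c i w ∩ A = ∅ := by
      ext x
      simp only [Set.mem_inter_iff, Set.mem_empty_iff_false, iff_false]
      rintro ⟨hx, hxm⟩
      rcases hcol w hw x hxm hx.1 with h | h
      · exact hi (hx.2.symm.trans h)
      · rw [hSe] at h; simp at h
    rw [this]
    exact Set.countable_empty
  | succ s ih =>
    intro S A hS hA hcol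
    by_cases h : ∀ w ∈ A, ∀ i, i ≠ 0 → (N (id : V → V) c i w ∩ A).Countable
    · exact ⟨A, le_rfl, hA, h⟩
    · push Not at h
      obtain ⟨w, hw, i, hi, hunc⟩ := h
      have hiS : i ∈ S := by
        have hne : (N (id : V → V) c i w ∩ A).Nonempty := by
          rw [Set.nonempty_iff_ne_empty]
          intro h
          apply hunc
          rw [h]
          exact Set.countable_empty
        obtain ⟨x, hx, hxC⟩ := hne
        rcases hcol w hw x hxC hx.1 with h | h
        · exact absurd (hx.2.symm.trans h) hi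
        · rw [hx.2] at h; exact h
      obtain ⟨A', hA', h1, h2⟩ := ih (S.erase i) (N (id : V → V) c i w ∩ A)
        (by rw [Finset.card_erase_of_mem hiS]; omega) hunc
        (by
          intro x hx y hy hxy
          rcases hcol x hx.2 y hy.2 hxy with h | h
          · exact Or.inl h
          · right
            rw [Finset.mem_erase]
            exact ⟨htri i hi w x y hx.1.1 hy.1.1 hxy hx.1.2 hy.1.2, h⟩)
      exact ⟨A', hA'.trans Set.inter_subset_right, h1, h2⟩

end general

/-- the first uncountable ordinal -/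
noncomputable abbrev W : Ordinal.{0} := (Cardinal.aleph 1).ord

theorem countable_Iio {δ : Ordinal.{0}} (h : δ < W) : (Set.Iio δ).Countable := by
  rw [Cardinal.lt_ord, Cardinal.lt_aleph_one_iff] at h
  rw [← Cardinal.le_aleph0_iff_set_countable, Cardinal.mk_Iio_ordinal,
    ← Cardinal.lift_aleph0.{1, 0}, Cardinal.lift_le]
  exact h

theorem not_countable_Iio : ¬ (Set.Iio W).Countable := by
  rw [← Cardinal.le_aleph0_iff_set_countable, Cardinal.mk_Iio_ordinal]
  simp

theorem countable_Iic {δ : Ordinal.{0}} (h : δ < W) : (Set.Iic δ).Countable := by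
  have : Set.Iic δ = insert δ (Set.Iio δ) := by
    ext x
    simp only [Set.mem_Iic, Set.mem_insert_iff, Set.mem_Iio]
    exact le_iff_eq_or_lt
  rw [this]
  exact (countable_Iio h).insert _

theorem recursion {V : Type*} (C : ℕ → Set V) (hunc : ∀ n, ¬ (C n).Countable)
    (Bad : V → ℕ → Set V) (hbad : ∀ m, ∀ x ∈ C m, ∀ n, (Bad x n ∩ C n).Countable)
    (n : Ordinal.{0} → ℕ) :
    ∃ x : Ordinal.{0} → V, ∀ δ < W, x δ ∈ C (n δ) ∧ ∀ δ' < δ, x δ ∉ Bad (x δ') (n δ) := by
  have hV : Nonempty V := by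
    have : (C 0).Nonempty := by
      rw [Set.nonempty_iff_ne_empty]
      intro h
      apply hunc 0
      rw [h]
      exact Set.countable_empty
    exact ⟨this.some⟩
  let F : (δ : Ordinal.{0}) → ((δ' : Ordinal.{0}) → δ' < δ → V) → V := fun δ f =>
    if h : ∃ y, y ∈ C (n δ) ∧ ∀ δ' (hδ : δ' < δ), y ∉ Bad (f δ' hδ) (n δ) then h.choose
    else hV.some
  let x : Ordinal.{0} → V := Ordinal.lt_wf.fix F
  have hx : ∀ δ, x δ = F δ (fun δ' _ => x δ') := fun δ => Ordinal.lt_wf.fix_eq F δ
  refine ⟨x, ?_⟩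
  intro δ
  induction δ using Ordinal.lt_wf.induction with
  | _ δ ih =>
    intro hδ
    have hex : ∃ y, y ∈ C (n δ) ∧ ∀ δ' (hδ : δ' < δ), y ∉ Bad (x δ') (n δ) := by
      by_contra hcon
      push Not at hcon
      apply hunc (n δ)
      have hsub : C (n δ) ⊆ ⋃ δ' ∈ Set.Iio δ, (Bad (x δ') (n δ) ∩ C (n δ)) := by
        intro y hy
        obtain ⟨δ', hδ', hyb⟩ := hcon y hy
        simp only [Set.mem_iUnion]
        exact ⟨δ', hδ', hyb, hy⟩
      refine Set.Countable.mono hsub ?_
      refine (countable_Iio hδ).biUnion ?_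
      intro δ' hδ'
      exact hbad (n δ') (x δ') (ih δ' hδ' (lt_trans hδ' hδ)).1 (n δ)
    have : x δ = hex.choose := by
      rw [hx]
      exact dif_pos hex
    rw [this]
    exact hex.choose_spec

theorem W_ne_zero : W ≠ 0 := by
  intro h
  have := not_countable_Iio
  rw [h] at this
  apply this
  have : (Set.Iio (0 : Ordinal.{0})) = ∅ := by
    ext x; simp
  rw [this]
  exact Set.countable_empty

theorem idx_lt {α : Ordinal.{0}} (hα : α < W) (j : ℕ) : Ordinal.omega0 * α + j < W := by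
  rw [Cardinal.lt_ord, Cardinal.lt_aleph_one_iff] at hα ⊢
  rw [Ordinal.card_add, Ordinal.card_mul, Ordinal.card_omega0, Ordinal.card_nat]
  refine Cardinal.add_le_aleph0.mpr ⟨?_, (Cardinal.natCast_lt_aleph0).le⟩
  calc Cardinal.aleph0 * α.card ≤ Cardinal.aleph0 * Cardinal.aleph0 := by gcongr
    _ = Cardinal.aleph0 := Cardinal.aleph0_mul_aleph0


section assembly

variable {k : ℕ}

/-- the symmetrised colouring, set to `0` outside `W * W` -/
noncomputable def sc (c : Ordinal.{0} → Ordinal.{0} → Fin (k + 1)) (x y : Ordinal.{0}) :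
    Fin (k + 1) :=
  if x < y then (if y < W * W then c x y else 0) else (if x < W * W then c y x else 0)

theorem sc_symm (c : Ordinal.{0} → Ordinal.{0} → Fin (k + 1)) {x y : Ordinal.{0}} (h : x ≠ y) :
    sc c x y = sc c y x := by
  unfold sc
  rcases lt_or_gt_of_ne h with h | h
  · rw [if_pos h, if_neg (not_lt.mpr h.le)]
  · rw [if_neg (not_lt.mpr h.le), if_pos h]

theorem sc_of_lt (c : Ordinal.{0} → Ordinal.{0} → Fin (k + 1)) {x y : Ordinal.{0}} (h : x < y)
    (hy : y < W * W) : sc c x y = c x y := by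
  unfold sc
  rw [if_pos h, if_pos hy]

theorem sc_ne_zero (c : Ordinal.{0} → Ordinal.{0} → Fin (k + 1)) {x y : Ordinal.{0}} (h : x < y)
    (hne : sc c x y ≠ 0) : y < W * W := by
  unfold sc at hne
  rw [if_pos h] at hne
  by_contra hcon
  rw [if_neg hcon] at hne
  exact hne rfl

theorem noTri_sc (c : Ordinal.{0} → Ordinal.{0} → Fin (k + 1))
    (h : ¬ ∃ i : Fin (k + 1), i ≠ 0 ∧
        ∃ a b d : Ordinal.{0}, a < b ∧ b < d ∧ d < W * W ∧
          c a b = i ∧ c a d = i ∧ c b d = i) : NoTri (id : Ordinal.{0} → Ordinal.{0}) (sc c) := by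
  -- sorted version
  have key : ∀ i, i ≠ 0 → ∀ x y z : Ordinal.{0}, x < y → y < z → sc c x y = i → sc c x z = i →
      sc c y z = i → False := by
    intro i hi x y z hxy hyz h1 h2 h3
    have hz : z < W * W := sc_ne_zero c hyz (by rw [h3]; exact hi)
    apply h
    refine ⟨i, hi, x, y, z, hxy, hyz, hz, ?_, ?_, ?_⟩
    · rw [← sc_of_lt c hxy (hyz.trans hz)]; exact h1
    · rw [← sc_of_lt c (hxy.trans hyz) hz]; exact h2
    · rw [← sc_of_lt c hyz hz]; exact h3
  intro i hi x y z hxy hxz hyz h1 h2 h3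
  simp only [id] at hxy hxz hyz
  have h1' : sc c y x = i := by rw [← sc_symm c hxy]; exact h1
  have h2' : sc c z x = i := by rw [← sc_symm c hxz]; exact h2
  have h3' : sc c z y = i := by rw [← sc_symm c hyz]; exact h3
  rcases lt_or_gt_of_ne hxy with a | a <;> rcases lt_or_gt_of_ne hxz with b | b <;>
    rcases lt_or_gt_of_ne hyz with d | d
  · exact key i hi x y z a d h1 h2 h3
  · exact key i hi x z y b d h2 h1 h3'
  · exact absurd (a.trans d) (not_lt.mpr b.le)
  · exact key i hi z x y b a h2' h3' h1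
  · exact key i hi y x z a b h1' h3 h2
  · exact absurd (a.trans b) (not_lt.mpr d.le)
  · exact key i hi y z x d b h3 h1' h2'
  · exact key i hi z y x d a h3' h2' h1'

theorem large_P : Large (fun v : Ordinal.{0} => v / W) (Set.Iio (W * W)) := by
  intro hL
  apply not_countable_Iio
  refine hL.mono ?_
  intro ξ hξ
  simp only [Set.mem_Iio] at hξ
  intro hc
  apply not_countable_Iio
  have hsub : (fun a : Ordinal.{0} => W * ξ + a) '' Set.Iio W ⊆
      (Set.Iio (W * W) ∩ (fun v : Ordinal.{0} => v / W) ⁻¹' {ξ}) := by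
    rintro _ ⟨a, ha, rfl⟩
    simp only [Set.mem_Iio] at ha
    refine ⟨?_, ?_⟩
    · simp only [Set.mem_Iio]
      rw [Ordinal.lt_mul_iff_div_lt W_ne_zero, Ordinal.mul_add_div _ W_ne_zero, Ordinal.div_eq_zero_of_lt ha,
        add_zero]
      exact hξ
    · simp only [Set.mem_preimage, Set.mem_singleton_iff]
      rw [Ordinal.mul_add_div _ W_ne_zero, Ordinal.div_eq_zero_of_lt ha, add_zero]
  have h2 := hc.mono hsub
  refine Set.countable_of_injective_of_countable_image ?_ h2
  intro a _ b _ hab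
  simpa using hab

theorem countable_below {x : Ordinal.{0}} :
    {y : Ordinal.{0} | x / W = y / W ∧ y ≤ x}.Countable := by
  refine ((countable_Iic (Ordinal.mod_lt x W_ne_zero)).image
    (fun a => W * (x / W) + a)).mono ?_
  rintro y ⟨h1, h2⟩
  refine ⟨y % W, ?_, ?_⟩
  · simp only [Set.mem_Iic]
    have h3 := Ordinal.div_add_mod y W
    have h4 := Ordinal.div_add_mod x W
    rw [← h1] at h3
    rw [← h3, ← h4] at h2
    rw [h4] at h2
    by_contra hcon
    push Not at hcon
    have h5 : W * (x / W) + x % W < W * (x / W) + y % W := by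
      simpa using hcon
    rw [h4] at h5
    exact absurd h2 (not_le.mpr h5)
  · show W * (x / W) + y % W = y
    rw [h1]
    exact Ordinal.div_add_mod y W

theorem main (k : ℕ) (c : Ordinal.{0} → Ordinal.{0} → Fin (k + 1)) :
    (∃ f : Ordinal.{0} → Ordinal.{0},
          StrictMonoOn f (Set.Iio (W * Ordinal.omega0)) ∧
          (∀ β : Ordinal.{0}, β < W * Ordinal.omega0 → f β < W * W) ∧
          (∀ β γ : Ordinal.{0}, β < γ → γ < W * Ordinal.omega0 → c (f β) (f γ) = 0)) ∨
      (∃ i : Fin (k + 1), i ≠ 0 ∧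
        ∃ a b d : Ordinal.{0}, a < b ∧ b < d ∧ d < W * W ∧
          c a b = i ∧ c a d = i ∧ c b d = i) := by
  by_contra hcon
  rw [not_or] at hcon
  obtain ⟨hcon1, hcon2⟩ := hcon
  have htri : NoTri (id : Ordinal.{0} → Ordinal.{0}) (sc c) := noTri_sc c hcon2
  set b : Ordinal.{0} → Ordinal.{0} := fun v => v / W with hb
  have htri' : NoTri b (sc c) := by
    intro i hi x y z hxy hxz hyz
    exact htri i hi x y z (fun h => hxy (congrArg b h)) (fun h => hxz (congrArg b h))
      (fun h => hyz (congrArg b h))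
  obtain ⟨C, hC1, hC2, hC3⟩ := exists_light htri' large_P
  -- blocks
  have hblk : ∀ n, ∃ ξ, C n ⊆ b ⁻¹' {ξ} := fun n => (hC1 n).1.2
  choose ξ hξ using hblk
  have hξ' : ∀ n, ∀ x ∈ C n, x / W = ξ n := fun n x hx => hξ n hx
  have hCne : ∀ n, (C n).Nonempty := by
    intro n
    rw [Set.nonempty_iff_ne_empty]
    intro h
    apply (hC1 n).1.1
    rw [h]
    exact Set.countable_empty
  have hξinj : ∀ n m, n ≠ m → ξ n ≠ ξ m := by
    intro n m hnm h
    obtain ⟨x, hx⟩ := hCne n
    obtain ⟨y, hy⟩ := hCne m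
    apply hC2 n m hnm x hx y hy
    show x / W = y / W
    rw [hξ' n x hx, hξ' m y hy, h]
  obtain ⟨g, hg⟩ := exists_increasing_or_nonincreasing_subseq (· < ·) ξ
  have hg' : ∀ m n : ℕ, m < n → ξ (g m) < ξ (g n) := by
    rcases hg with hg | hg
    · exact hg
    · exfalso
      have hanti : ∀ n, ξ (g (n + 1)) < ξ (g n) := by
        intro n
        have h1 := hg n (n + 1) (Nat.lt_succ_self n)
        have h2 := hξinj (g n) (g (n + 1)) (fun h => by
          have := g.injective h
          omega)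
        exact lt_of_le_of_ne (not_lt.mp h1) h2.symm
      exact (RelEmbedding.natGT (fun n => ξ (g n)) hanti).not_wellFounded Ordinal.lt_wf
  -- inner light
  have hin : ∀ n, ∃ A' ⊆ C (g n), ¬ A'.Countable ∧
      ∀ w ∈ A', ∀ i, i ≠ 0 → (N (id : Ordinal.{0} → Ordinal.{0}) (sc c) i w ∩ A').Countable := by
    intro n
    exact innerLight htri (k + 1) Finset.univ (C (g n)) (by simp) (hC1 (g n)).1.1
      (fun x _ y _ _ => Or.inr (Finset.mem_univ _))
  choose A hAC hAunc hAin using hin
  -- the bad sets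
  let Bad : Ordinal.{0} → ℕ → Set Ordinal.{0} := fun x _ =>
    {y | x / W = y / W ∧ y ≤ x} ∪ ⋃ i : Fin (k + 1), {y | i ≠ 0 ∧ y ∈ N (id : Ordinal.{0} → Ordinal.{0}) (sc c) i x}
  have hBad : ∀ m, ∀ x ∈ A m, ∀ n, (Bad x n ∩ A n).Countable := by
    intro m x hx n
    have hsub : Bad x n ∩ A n ⊆ {y | x / W = y / W ∧ y ≤ x} ∪
        ⋃ i : Fin (k + 1), {y | i ≠ 0 ∧ y ∈ N (id : Ordinal.{0} → Ordinal.{0}) (sc c) i x ∩ A n} := by
      rintro y ⟨hy | hy, hyA⟩
      · exact Or.inl hy
      · right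
        rw [Set.mem_iUnion] at hy ⊢
        obtain ⟨i, hi, hy⟩ := hy
        exact ⟨i, hi, hy, hyA⟩
    refine Set.Countable.mono hsub (countable_below.union (Set.countable_iUnion ?_))
    intro i
    by_cases hi : i = 0
    · refine Set.countable_empty.mono ?_
      rintro y ⟨h, _⟩
      exact absurd hi h
    · by_cases hmn : m = n
      · subst hmn
        refine (hAin m x hx i hi).mono ?_
        rintro y ⟨_, hy⟩
        exact hy
      · have hne : g m ≠ g n := fun h => hmn (g.injective h)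
        refine (hC3 (g m) (g n) hne x (hAC m hx) i hi).mono ?_
        rintro y ⟨_, hy1, hy2⟩
        refine ⟨⟨?_, hy1.2⟩, hAC n hy2⟩
        exact hC2 (g m) (g n) hne x (hAC m hx) y (hAC n hy2)
  -- index function
  let nn : Ordinal.{0} → ℕ := fun δ =>
    (Ordinal.lt_omega0.1 (Ordinal.mod_lt δ Ordinal.omega0_ne_zero)).choose
  have hnn : ∀ δ, δ % Ordinal.omega0 = (nn δ : Ordinal.{0}) := fun δ =>
    (Ordinal.lt_omega0.1 (Ordinal.mod_lt δ Ordinal.omega0_ne_zero)).choose_spec
  obtain ⟨x, hx⟩ := recursion A hAunc Bad hBad nn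
  have hnn' : ∀ (α : Ordinal.{0}) (j : ℕ), nn (Ordinal.omega0 * α + j) = j := by
    intro α j
    have h1 := hnn (Ordinal.omega0 * α + j)
    rw [Ordinal.mul_add_mod_self, Ordinal.mod_eq_of_lt (Ordinal.natCast_lt_omega0 j)] at h1
    exact_mod_cast h1.symm
  -- the index of β
  let D : Ordinal.{0} → Ordinal.{0} := fun β => Ordinal.omega0 * (β % W) + β / W
  have hD : ∀ β, β < W * Ordinal.omega0 → ∃ j : ℕ, β / W = j ∧ D β < W ∧ nn (D β) = j := by
    intro β hβ
    rw [Ordinal.lt_mul_iff_div_lt W_ne_zero] at hβ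
    obtain ⟨j, hj⟩ := Ordinal.lt_omega0.1 hβ
    refine ⟨j, hj, ?_, ?_⟩
    · show Ordinal.omega0 * (β % W) + β / W < W
      rw [hj]
      exact idx_lt (Ordinal.mod_lt β W_ne_zero) j
    · show nn (Ordinal.omega0 * (β % W) + β / W) = j
      rw [hj]
      exact hnn' _ j
  -- strict monotonicity
  have hmono : ∀ β γ, β < γ → γ < W * Ordinal.omega0 → x (D β) < x (D γ) := by
    intro β γ hβγ hγ
    obtain ⟨j, hj1, hj2, hj3⟩ := hD β (hβγ.trans hγ)
    obtain ⟨j', hj1', hj2', hj3'⟩ := hD γ hγ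
    have hβ1 := hx (D β) hj2
    have hγ1 := hx (D γ) hj2'
    rw [hj3] at hβ1
    rw [hj3'] at hγ1
    have hbβ : x (D β) / W = ξ (g j) := hξ' (g j) _ (hAC j hβ1.1)
    have hbγ : x (D γ) / W = ξ (g j') := hξ' (g j') _ (hAC j' hγ1.1)
    have hle : j ≤ j' := by
      have : β / W ≤ γ / W := Ordinal.div_le_left hβγ.le W
      rw [hj1, hj1'] at this
      exact_mod_cast this
    rcases lt_or_eq_of_le hle with hlt | heq
    · by_contra hcon
      push Not at hcon
      have := Ordinal.div_le_left hcon W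
      rw [hbβ, hbγ] at this
      exact absurd (hg' j j' hlt) (not_lt.mpr this)
    · subst heq
      have hmod : β % W < γ % W := by
        have h3 := Ordinal.div_add_mod β W
        have h4 := Ordinal.div_add_mod γ W
        rw [hj1] at h3
        rw [hj1'] at h4
        rw [← h3, ← h4] at hβγ
        simpa using hβγ
      have hDlt : D β < D γ := by
        show Ordinal.omega0 * (β % W) + β / W < Ordinal.omega0 * (γ % W) + γ / W
        rw [hj1, hj1']
        calc Ordinal.omega0 * (β % W) + (j : Ordinal.{0})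
            < Ordinal.omega0 * (β % W) + Ordinal.omega0 := by
              simp
          _ = Ordinal.omega0 * (β % W + 1) := by rw [mul_add, mul_one]
          _ ≤ Ordinal.omega0 * (γ % W) := by
              have : β % W + 1 ≤ γ % W := by
                rw [← Order.succ_eq_add_one]
                exact Order.succ_le_of_lt hmod
              gcongr
          _ ≤ Ordinal.omega0 * (γ % W) + (j : Ordinal.{0}) := le_self_add
      have hnb := hγ1.2 (D β) hDlt
      by_contra hcon
      push Not at hcon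
      apply hnb
      left
      exact ⟨by rw [hbβ, hbγ], hcon⟩
  refine hcon1 ⟨fun β => x (D β), ?_, ?_, ?_⟩
  · intro β _ γ hγ hβγ
    exact hmono β γ hβγ hγ
  · intro β hβ
    obtain ⟨j, hj1, hj2, hj3⟩ := hD β hβ
    have := (hx (D β) hj2).1
    rw [hj3] at this
    exact (hC1 (g j)).2 (hAC j this)
  · intro β γ hβγ hγ
    have hlt := hmono β γ hβγ hγ
    obtain ⟨j, hj1, hj2, hj3⟩ := hD β (hβγ.trans hγ)
    obtain ⟨j', hj1', hj2', hj3'⟩ := hD γ hγ
    have hWW : x (D γ) < W * W := by
      have := (hx (D γ) hj2').1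
      rw [hj3'] at this
      exact (hC1 (g j')).2 (hAC j' this)
    show c (x (D β)) (x (D γ)) = 0
    rw [← sc_of_lt c hlt hWW]
    have hne : D β ≠ D γ := by
      intro h
      rw [h] at hlt
      exact lt_irrefl _ hlt
    have hgen : ∀ δ δ', δ < δ' → δ' < W → x δ ≠ x δ' → sc c (x δ) (x δ') = 0 := by
      intro δ δ' hδ hδ' hxne
      by_contra hcon
      apply (hx δ' hδ').2 δ hδ
      right
      rw [Set.mem_iUnion]
      exact ⟨sc c (x δ) (x δ'), hcon, hxne, rfl⟩
    rcases lt_or_gt_of_ne hne with h | h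
    · exact hgen _ _ h hj2' hlt.ne
    · rw [sc_symm c hlt.ne]
      exact hgen _ _ h hj2 hlt.ne'

end assembly

end Pool.Agent.MP_17bc6d_lc
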