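import Pool.Agent.Lib.MP_17bc6d_lc.Seq

set_option autoImplicit false
open Classical

namespace Pool.Agent.MP_17bc6d_lc

variable {V ι : Type*} {k : ℕ}

/-- no triangles in nonzero colours across three different blocks -/
def NoTri (b : V → ι) (c : V → V → Fin (k + 1)) : Prop :=
  ∀ i, i ≠ 0 → ∀ x y z, b x ≠ b y → b x ≠ b z → b y ≠ b z → c x y = i → c x z = i → c y z ≠ i

/-- an infinite set of naturals has a strictly monotone enumeration into it -/
theorem exists_strictMono_of_infinite {S : Set ℕ} (hS : S.Infinite) :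
    ∃ φ : ℕ → ℕ, StrictMono φ ∧ ∀ n, φ n ∈ S := by
  refine ⟨Nat.nth (· ∈ S), Nat.nth_strictMono hS, ?_⟩
  intro n
  exact Nat.nth_mem_of_infinite hS n

/-- Lemma A: a system without down-links contains a light system -/
theorem lemmaA {b : V → ι} {c : V → V → Fin (k + 1)} (htri : NoTri b c) (s : ℕ) :
    ∀ (S : Finset (Fin (k + 1))) (C : ℕ → Set V), S.card ≤ s →
      (∀ n, ¬ (C n).Countable) →
      (∀ n m, n ≠ m → ∀ x ∈ C n, ∀ y ∈ C m, b x ≠ b y) →
      (∀ n x y, x ∈ C n → y ∈ C n → b x = b y) →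
      (∀ n m, n ≠ m → ∀ x ∈ C n, ∀ y ∈ C m, c x y = 0 ∨ c x y ∈ S) →
      (∀ n m, n < m → ∀ w ∈ C m, ∀ i, i ≠ 0 → (N b c i w ∩ C n).Countable) →
      ∃ (φ : ℕ → ℕ) (C' : ℕ → Set V), StrictMono φ ∧ (∀ n, C' n ⊆ C (φ n)) ∧
        (∀ n, ¬ (C' n).Countable) ∧
        (∀ n m, n ≠ m → ∀ w ∈ C' n, ∀ i, i ≠ 0 → (N b c i w ∩ C' m).Countable) := by
  induction s with
  | zero =>
    intro S C hS hunc hblk hsame hcol hdown
    have hSe : S = ∅ := by
      rw [← Finset.card_eq_zero]; omega
    refine ⟨id, C, strictMono_id, fun n => le_rfl, hunc, ?_⟩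
    intro n m hnm w hw i hi
    have : N b c i w ∩ C m = ∅ := by
      ext x
      simp only [Set.mem_inter_iff, Set.mem_empty_iff_false, iff_false]
      rintro ⟨hx, hxm⟩
      rcases hcol n m hnm w hw x hxm with h | h
      · exact hi (hx.2.symm.trans h)
      · rw [hSe] at h; simp at h
    rw [this]
    exact Set.countable_empty
  | succ s ih =>
    intro S C hS hunc hblk hsame hcol hdown
    by_cases hfin : ∀ n, ∀ w ∈ C n, {m | ∃ i, i ≠ 0 ∧ ¬ (N b c i w ∩ C m).Countable}.Finite
    · -- finite case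
      have hF : ∀ n, ∃ F : Finset ℕ, ¬ {w | w ∈ C n ∧
          {m | ∃ i, i ≠ 0 ∧ ¬ (N b c i w ∩ C m).Countable} = (↑F : Set ℕ)}.Countable := by
        intro n
        by_contra hcon
        push Not at hcon
        apply hunc n
        have : C n ⊆ ⋃ F : Finset ℕ, {w | w ∈ C n ∧
          {m | ∃ i, i ≠ 0 ∧ ¬ (N b c i w ∩ C m).Countable} = (↑F : Set ℕ)} := by
          intro w hw
          rw [Set.mem_iUnion]
          exact ⟨(hfin n w hw).toFinset, hw, by rw [Set.Finite.coe_toFinset]⟩
        exact (Set.countable_iUnion hcon).mono this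
      choose F hF using hF
      -- the fast growing function
      let B : ℕ → ℕ := fun n => ((Finset.range (n + 1)).biUnion F).sup id + n + 1
      have hB : ∀ n m, m ∈ F n → m < B n := by
        intro n m hm
        have : m ≤ ((Finset.range (n + 1)).biUnion F).sup id := by
          refine Finset.le_sup (f := id) ?_
          rw [Finset.mem_biUnion]
          exact ⟨n, by simp, hm⟩
        show m < ((Finset.range (n + 1)).biUnion F).sup id + n + 1
        omega
      have hBn : ∀ n, n < B n := by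
        intro n
        show n < ((Finset.range (n + 1)).biUnion F).sup id + n + 1
        omega
      let φ : ℕ → ℕ := fun n => Nat.rec 0 (fun _ x => B x) n
      have hφs : ∀ n, φ (n + 1) = B (φ n) := fun n => rfl
      have hφ : StrictMono φ := by
        refine strictMono_nat_of_lt_succ ?_
        intro n
        rw [hφs]
        exact hBn _
      refine ⟨φ, fun n => {w | w ∈ C (φ n) ∧
          {m | ∃ i, i ≠ 0 ∧ ¬ (N b c i w ∩ C m).Countable} = (↑(F (φ n)) : Set ℕ)}, hφ,
          fun n w hw => hw.1, fun n => hF (φ n), ?_⟩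
      intro n m hnm w hw i hi
      refine Set.Countable.mono (s₂ := N b c i w ∩ C (φ m))
        (Set.inter_subset_inter_right _ (fun x hx => hx.1)) ?_
      rcases lt_or_gt_of_ne hnm with h | h
      · by_contra hcon
        have h1 : φ m ∈ {m | ∃ i, i ≠ 0 ∧ ¬ (N b c i w ∩ C m).Countable} := ⟨i, hi, hcon⟩
        rw [hw.2] at h1
        have h2 := hB _ _ (Finset.mem_coe.mp h1)
        have h3 : φ (n + 1) ≤ φ m := hφ.monotone h
        rw [hφs] at h3
        omega
      · exact hdown (φ m) (φ n) (hφ h) w hw.1 i hi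
    · push Not at hfin
      obtain ⟨n, w, hw, hinf⟩ := hfin
      have : ∃ i, i ≠ 0 ∧ {m | ¬ (N b c i w ∩ C m).Countable}.Infinite := by
        by_contra hcon
        push Not at hcon
        apply hinf
        have hsub : {m | ∃ i, i ≠ 0 ∧ ¬ (N b c i w ∩ C m).Countable} ⊆
            ⋃ i : Fin (k + 1), {m | i ≠ 0 ∧ ¬ (N b c i w ∩ C m).Countable} := by
          rintro m ⟨i, hi, h⟩
          rw [Set.mem_iUnion]
          exact ⟨i, hi, h⟩
        refine Set.Finite.subset (Set.finite_iUnion ?_) hsub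
        intro i
        by_cases hi : i = 0
        · refine Set.Finite.subset Set.finite_empty ?_
          rintro m ⟨h, _⟩
          exact absurd hi h
        · refine Set.Finite.subset (hcon i hi) ?_
          rintro m ⟨_, h⟩
          exact h
      obtain ⟨i, hi, hinf2⟩ := this
      obtain ⟨ψ, hψ, hψ2⟩ := exists_strictMono_of_infinite hinf2
      have hiS : i ∈ S := by
        have hne : (N b c i w ∩ C (ψ 0)).Nonempty := by
          rw [Set.nonempty_iff_ne_empty]
          intro h
          apply hψ2 0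
          rw [h]
          exact Set.countable_empty
        obtain ⟨x, hx, hxC⟩ := hne
        have hne2 : n ≠ ψ 0 := by
          intro h
          apply hx.1
          exact hsame n w x hw (by rw [h]; exact hxC)
        rcases hcol n (ψ 0) hne2 w hw x hxC with h | h
        · exact absurd (hx.2.symm.trans h) hi
        · rw [hx.2] at h; exact h
      obtain ⟨φ, C', hφ, hC', hunc', hlight⟩ := ih (S.erase i)
        (fun m => N b c i w ∩ C (ψ m))
        (by rw [Finset.card_erase_of_mem hiS]; omega)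
        (fun m => hψ2 m)
        (by
          intro n' m' hnm x hx y hy
          exact hblk (ψ n') (ψ m') (hψ.injective.ne hnm) x hx.2 y hy.2)
        (by
          intro n' x y hx hy
          exact hsame (ψ n') x y hx.2 hy.2)
        (by
          intro n' m' hnm x hx y hy
          have hbxy := hblk (ψ n') (ψ m') (hψ.injective.ne hnm) x hx.2 y hy.2
          rcases hcol (ψ n') (ψ m') (hψ.injective.ne hnm) x hx.2 y hy.2 with h | h
          · exact Or.inl h
          · right
            rw [Finset.mem_erase]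
            refine ⟨?_, h⟩
            exact htri i hi w x y hx.1.1 hy.1.1 hbxy hx.1.2 hy.1.2)
        (by
          intro n' m' hnm x hx j hj
          refine (hdown (ψ n') (ψ m') (hψ hnm) x hx.2 j hj).mono ?_
          exact Set.inter_subset_inter_right _ Set.inter_subset_right)
      refine ⟨fun n => ψ (φ n), C', hψ.comp hφ, ?_, hunc', hlight⟩
      intro n x hx
      exact (hC' n hx).2

/-- from a large set one gets a light system -/
theorem exists_light {b : V → ι} {c : V → V → Fin (k + 1)} (htri : NoTri b c) {P : Set V}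
    (hP : Large b P) :
    ∃ C : ℕ → Set V, (∀ n, Region b (C n) ∧ C n ⊆ P) ∧
      (∀ n m, n ≠ m → ∀ x ∈ C n, ∀ y ∈ C m, b x ≠ b y) ∧
      (∀ n m, n ≠ m → ∀ w ∈ C n, ∀ i, i ≠ 0 → (N b c i w ∩ C m).Countable) := by
  obtain ⟨A, Y, J, hA, hJY, hJ0, hdom, hdown⟩ := exists_seq (c := c) hP
  -- pigeonhole
  have hpig : ∃ J₀, {n | J n = J₀}.Infinite := by
    by_contra hcon
    push Not at hcon
    have hfin : (Set.univ : Set ℕ).Finite := by
      have hsub : (Set.univ : Set ℕ) ⊆
          ⋃ J₀ ∈ (((Finset.univ : Finset (Fin (k+1))) ×ˢ Y).powerset : Set _), {n | J n = J₀} := by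
        intro n _
        simp only [Set.mem_iUnion]
        exact ⟨J n, Finset.mem_coe.mpr (Finset.mem_powerset.mpr (hJY n)), rfl⟩
      refine Set.Finite.subset (Set.Finite.biUnion (Finset.finite_toSet _) ?_) hsub
      intro J₀ _
      exact hcon J₀
    exact Set.infinite_univ hfin
  obtain ⟨J₀, hJ₀⟩ := hpig
  obtain ⟨ψ, hψ, hψ2⟩ := exists_strictMono_of_infinite hJ₀
  have hJψ : ∀ n, J (ψ n) = J₀ := hψ2
  set C : ℕ → Set V := fun n => dom b c (A (ψ n)) J₀ with hC
  have hCA : ∀ n, C n ⊆ A (ψ n) := fun n x hx => hx.1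
  have hblk : ∀ n m, n ≠ m → ∀ x ∈ C n, ∀ y ∈ C m, b x ≠ b y := by
    intro n m hnm x hx y hy
    rcases lt_or_gt_of_ne hnm with h | h
    · exact (hdown (ψ n) (ψ m) (hψ h) y (hCA m hy)).1 x (hCA n hx)
    · exact ((hdown (ψ m) (ψ n) (hψ h) x (hCA n hx)).1 y (hCA m hy)).symm
  have hsame : ∀ n x y, x ∈ C n → y ∈ C n → b x = b y := by
    intro n x y hx hy
    obtain ⟨⟨_, ξ, hξ⟩, _⟩ := hA (ψ n)
    have h1 := hξ (hCA n hx)
    have h2 := hξ (hCA n hy)
    simp only [Set.mem_preimage, Set.mem_singleton_iff] at h1 h2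
    rw [h1, h2]
  have hunc : ∀ n, ¬ (C n).Countable := by
    intro n
    have := hdom (ψ n)
    rw [hJψ n] at this
    exact this
  obtain ⟨φ, C', hφ, hC', hunc', hlight⟩ := lemmaA htri (k + 1) Finset.univ C
    (by simp) hunc hblk hsame
    (fun n m _ x _ y _ => Or.inr (Finset.mem_univ _))
    (by
      intro n m hnm w hw i hi
      by_cases hiJ : i ∈ J₀.image Prod.fst
      · rw [Finset.mem_image] at hiJ
        obtain ⟨p, hp, rfl⟩ := hiJ
        have : N b c p.1 w ∩ C n = ∅ := by
          ext x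
          simp only [Set.mem_inter_iff, Set.mem_empty_iff_false, iff_false]
          rintro ⟨hx, hxn⟩
          have h1 := hw.2 p hp
          have h2 := hxn.2 p hp
          exact htri p.1 hi p.2 w x h1.1 h2.1 hx.1 h1.2 h2.2 hx.2
        rw [this]
        exact Set.countable_empty
      · have h1 := (hdown (ψ n) (ψ m) (hψ hnm) w (hCA m hw)).2 i hi
          (by rw [hJψ n]; exact hiJ)
        exact h1.mono (Set.inter_subset_inter_right _ (hCA n)))
  refine ⟨C', ?_, ?_, hlight⟩
  · intro n
    obtain ⟨⟨_, ξ, hξ⟩, hAP⟩ := hA (ψ (φ n))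
    have hsub : C' n ⊆ A (ψ (φ n)) := (hC' n).trans (hCA _)
    exact ⟨⟨hunc' n, ξ, hsub.trans hξ⟩, hsub.trans hAP⟩
  · intro n m hnm x hx y hy
    exact hblk (φ n) (φ m) (hφ.injective.ne hnm) x (hC' n hx) y (hC' m hy)

end Pool.Agent.MP_17bc6d_lc
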