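import Pool.Agent.Lib.MP_17bc6d_lc.Core

set_option autoImplicit false
open Classical

namespace Pool.Agent.MP_17bc6d_lc

variable {V ι : Type*} {k : ℕ}

theorem cut_subset {b : V → ι} {c : V → V → Fin (k + 1)} {P A : Set V} {D : Finset (Fin (k + 1))} :
    cut b c P A D ⊆ P := fun _ hx => hx.1

/-- the main construction -/
theorem exists_seq {b : V → ι} {c : V → V → Fin (k + 1)} {P : Set V} (hP : Large b P) :
    ∃ (A : ℕ → Set V) (Y : Finset V) (J : ℕ → Finset (Fin (k + 1) × V)),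
      (∀ n, Region b (A n) ∧ A n ⊆ P) ∧
      (∀ n, J n ⊆ (Finset.univ : Finset (Fin (k + 1))) ×ˢ Y) ∧
      (∀ n, ∀ p ∈ J n, p.1 ≠ 0) ∧
      (∀ n, ¬ (dom b c (A n) (J n)).Countable) ∧
      (∀ n m, n < m → ∀ w ∈ A m, (∀ a ∈ A n, b a ≠ b w) ∧
        ∀ i, i ≠ 0 → i ∉ (J n).image Prod.fst → (N b c i w ∩ A n).Countable) := by
  obtain ⟨v, P₀, hP₀, hP₀P, hE, hmax⟩ := exists_max (c := c) hP
  -- witnesses of failure
  have hwit : ∀ Q : Set V, Large b Q ∧ Q ⊆ P → ∃ (𝒜 : Set (Set V)) (Z : Set V), 𝒜.Countable ∧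
      (∀ A ∈ 𝒜, Region b A ∧ A ⊆ Q) ∧ ¬ Large b Z ∧
      ∀ Y : Finset V, (↑Y : Set V) ⊆ Q \ Z → ∃ A ∈ 𝒜, (U b c Y A).card ≤ v := by
    rintro Q ⟨hQ, hQP⟩
    have := hmax Q hQ hQP
    unfold E at this
    push Not at this
    obtain ⟨𝒜, h1, h2, Z, h3, h4⟩ := this
    refine ⟨𝒜, Z, h1, h2, h3, ?_⟩
    intro Y hY
    obtain ⟨A, hA, hA2⟩ := h4 Y hY
    exact ⟨A, hA, by omega⟩
  choose! 𝒜 Z h𝒜c h𝒜r hZ hw using hwit
  -- the tree
  let T : ℕ → Set (Set V) := fun n => Nat.rec {P₀}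
    (fun _ S => {Q | ∃ R ∈ S, ∃ A ∈ 𝒜 R, ∃ D, Q = cut b c R A D ∧ Large b Q}) n
  have hT0 : T 0 = {P₀} := rfl
  have hTs : ∀ n, T (n + 1) = {Q | ∃ R ∈ T n, ∃ A ∈ 𝒜 R, ∃ D, Q = cut b c R A D ∧ Large b Q} :=
    fun n => rfl
  have hTgood : ∀ n, ∀ Q ∈ T n, Large b Q ∧ Q ⊆ P₀ := by
    intro n
    induction n with
    | zero =>
      intro Q hQ
      rw [hT0, Set.mem_singleton_iff] at hQ
      subst hQ
      exact ⟨hP₀, le_rfl⟩
    | succ n ih =>
      intro Q hQ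
      rw [hTs] at hQ
      obtain ⟨R, hR, A, hA, D, hQR, hL⟩ := hQ
      refine ⟨hL, ?_⟩
      rw [hQR]
      exact cut_subset.trans (ih R hR).2
  have hTc : ∀ n, (T n).Countable := by
    intro n
    induction n with
    | zero => rw [hT0]; exact Set.countable_singleton _
    | succ n ih =>
      have : T (n + 1) ⊆ ⋃ R ∈ T n, ⋃ A ∈ 𝒜 R, ⋃ D : Finset (Fin (k + 1)), {cut b c R A D} := by
        rw [hTs]
        rintro Q ⟨R, hR, A, hA, D, hQR, _⟩
        simp only [Set.mem_iUnion, Set.mem_singleton_iff]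
        exact ⟨R, hR, A, hA, D, hQR⟩
      refine Set.Countable.mono this ?_
      refine ih.biUnion ?_
      intro R hR
      have hR2 := hTgood n R hR
      refine (h𝒜c R ⟨hR2.1, hR2.2.trans hP₀P⟩).biUnion ?_
      intro A _
      refine Set.countable_iUnion ?_
      intro D
      exact Set.countable_singleton _
  set Tall : Set (Set V) := ⋃ n, T n with hTall
  have hTallc : Tall.Countable := Set.countable_iUnion hTc
  have hTallgood : ∀ Q ∈ Tall, Large b Q ∧ Q ⊆ P₀ := by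
    intro Q hQ
    rw [hTall, Set.mem_iUnion] at hQ
    obtain ⟨n, hn⟩ := hQ
    exact hTgood n Q hn
  have hTallgood' : ∀ Q ∈ Tall, Large b Q ∧ Q ⊆ P := fun Q hQ =>
    ⟨(hTallgood Q hQ).1, (hTallgood Q hQ).2.trans hP₀P⟩
  set ℛ : Set (Set V) := ⋃ Q ∈ Tall, 𝒜 Q with hℛ
  have hℛc : ℛ.Countable := hTallc.biUnion (fun Q hQ => h𝒜c Q (hTallgood' Q hQ))
  have hℛr : ∀ A ∈ ℛ, Region b A ∧ A ⊆ P₀ := by
    intro A hA
    rw [hℛ] at hA
    simp only [Set.mem_iUnion] at hA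
    obtain ⟨Q, hQ, hA⟩ := hA
    have := h𝒜r Q (hTallgood' Q hQ) A hA
    exact ⟨this.1, this.2.trans (hTallgood Q hQ).2⟩
  -- the small set
  set 𝒵 : Set (Set V) := (⋃ Q ∈ Tall, {Z Q}) ∪
    (⋃ Q ∈ Tall, ⋃ A ∈ 𝒜 Q, ⋃ D : Finset (Fin (k + 1)),
      {X | X = cut b c Q A D ∧ ¬ Large b X}) ∪
    (⋃ A ∈ ℛ, {{u | ∃ a ∈ A, b a = b u}}) with h𝒵
  have h𝒵c : 𝒵.Countable := by
    refine Set.Countable.union (Set.Countable.union ?_ ?_) ?_
    · exact hTallc.biUnion (fun Q _ => Set.countable_singleton _)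
    · refine hTallc.biUnion ?_
      intro Q hQ
      refine (h𝒜c Q (hTallgood' Q hQ)).biUnion ?_
      intro A _
      refine Set.countable_iUnion ?_
      intro D
      refine (Set.countable_singleton (cut b c Q A D)).mono ?_
      rintro X ⟨hX, _⟩
      exact hX
    · exact hℛc.biUnion (fun A _ => Set.countable_singleton _)
  have h𝒵s : ∀ X ∈ 𝒵, ¬ Large b X := by
    intro X hX
    rw [h𝒵] at hX
    rcases hX with (hX | hX) | hX
    · simp only [Set.mem_iUnion, Set.mem_singleton_iff] at hX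
      obtain ⟨Q, hQ, rfl⟩ := hX
      exact hZ Q (hTallgood' Q hQ)
    · simp only [Set.mem_iUnion, Set.mem_ofPred_eq] at hX
      obtain ⟨Q, hQ, A, hA, D, _, h⟩ := hX
      exact h
    · simp only [Set.mem_iUnion, Set.mem_singleton_iff] at hX
      obtain ⟨A, hA, rfl⟩ := hX
      exact not_large_block (hℛr A hA).1
  set Z₀ := ⋃₀ 𝒵 with hZ₀def
  have hZ₀ : ¬ Large b Z₀ := not_large_sUnion h𝒵c h𝒵s
  obtain ⟨Y₁, hY₁, hY₁2⟩ := greedy hE hZ₀ v le_rfl ℛ hℛc hℛr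
  -- one extra vertex
  have hne : (P₀ \ Z₀).Nonempty := by
    by_contra hcon
    rw [Set.not_nonempty_iff_eq_empty, Set.sdiff_eq_empty] at hcon
    exact hZ₀ (hP₀.mono hcon)
  obtain ⟨y₀, hy₀⟩ := hne
  set Y : Finset V := insert y₀ Y₁ with hYdef
  have hY : (↑Y : Set V) ⊆ P₀ \ Z₀ := by
    rw [hYdef, Finset.coe_insert]
    exact Set.insert_subset hy₀ hY₁
  have hyY : y₀ ∈ Y := Finset.mem_insert_self _ _
  -- the step
  have hstep : ∀ Q : Set V, Q ∈ Tall ∧ (↑Y : Set V) ⊆ Q → ∃ A ∈ 𝒜 Q,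
      (U b c Y A).card ≤ v ∧ cut b c Q A (U b c Y A) ∈ Tall ∧
        (↑Y : Set V) ⊆ cut b c Q A (U b c Y A) := by
    rintro Q ⟨hQ, hYQ⟩
    have hYZ : (↑Y : Set V) ⊆ Q \ Z Q := by
      intro y hy
      refine ⟨hYQ hy, ?_⟩
      intro hyZ
      apply (hY hy).2
      rw [hZ₀def, Set.mem_sUnion]
      refine ⟨Z Q, ?_, hyZ⟩
      rw [h𝒵]
      left; left
      simp only [Set.mem_iUnion, Set.mem_singleton_iff]
      exact ⟨Q, hQ, rfl⟩
    obtain ⟨A, hA, hAv⟩ := hw Q (hTallgood' Q hQ) Y hYZ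
    have hsub : (↑Y : Set V) ⊆ cut b c Q A (U b c Y A) := by
      intro y hy
      refine ⟨hYQ hy, ?_, ?_⟩
      · intro a ha hab
        apply (hY hy).2
        rw [hZ₀def, Set.mem_sUnion]
        refine ⟨{u | ∃ a ∈ A, b a = b u}, ?_, ⟨a, ha, hab⟩⟩
        rw [h𝒵]
        right
        simp only [Set.mem_iUnion, Set.mem_singleton_iff]
        refine ⟨A, ?_, rfl⟩
        rw [hℛ]
        simp only [Set.mem_iUnion]
        exact ⟨Q, hQ, hA⟩
      · intro i hi0 hi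
        by_contra hcon
        apply hi
        simp only [U, Finset.mem_filter, Finset.mem_univ, true_and]
        exact ⟨hi0, y, hy, hcon⟩
    refine ⟨A, hA, hAv, ?_, hsub⟩
    have hL : Large b (cut b c Q A (U b c Y A)) := by
      by_contra hcon
      apply (hY hyY).2
      rw [hZ₀def, Set.mem_sUnion]
      refine ⟨cut b c Q A (U b c Y A), ?_, hsub hyY⟩
      rw [h𝒵]
      left; right
      simp only [Set.mem_iUnion, Set.mem_ofPred_eq]
      exact ⟨Q, hQ, A, hA, U b c Y A, rfl, hcon⟩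
    rw [hTall, Set.mem_iUnion] at hQ
    obtain ⟨n, hn⟩ := hQ
    rw [hTall, Set.mem_iUnion]
    refine ⟨n + 1, ?_⟩
    rw [hTs]
    exact ⟨Q, hn, A, hA, U b c Y A, rfl, hL⟩
  choose! F hF1 hF2 hF3 hF4 using hstep
  -- the sequence
  let Q : ℕ → Set V := fun n => Nat.rec P₀ (fun _ R => cut b c R (F R) (U b c Y (F R))) n
  have hQ0 : Q 0 = P₀ := rfl
  have hQs : ∀ n, Q (n + 1) = cut b c (Q n) (F (Q n)) (U b c Y (F (Q n))) := fun n => rfl
  have hQgood : ∀ n, Q n ∈ Tall ∧ (↑Y : Set V) ⊆ Q n := by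
    intro n
    induction n with
    | zero =>
      rw [hQ0]
      refine ⟨?_, fun y hy => (hY hy).1⟩
      rw [hTall, Set.mem_iUnion]
      exact ⟨0, by rw [hT0]; rfl⟩
    | succ n ih =>
      rw [hQs]
      exact ⟨hF3 _ ih, hF4 _ ih⟩
  have hQmono : ∀ n m, n ≤ m → Q m ⊆ Q n := by
    intro n m hnm
    induction m, hnm using Nat.le_induction with
    | base => exact le_rfl
    | succ m _ ih =>
      rw [hQs]
      exact cut_subset.trans ih
  have hAℛ : ∀ n, F (Q n) ∈ ℛ := by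
    intro n
    rw [hℛ]
    simp only [Set.mem_iUnion]
    exact ⟨Q n, (hQgood n).1, hF1 _ (hQgood n)⟩
  have hJ : ∀ n, ∃ J : Finset (Fin (k + 1) × V), (∀ p ∈ J, p.1 ≠ 0 ∧ p.2 ∈ Y₁) ∧
      (J.image Prod.fst).card = v ∧ ¬ (dom b c (F (Q n)) J).Countable :=
    fun n => hY₁2 _ (hAℛ n)
  choose J hJ1 hJ2 hJ3 using hJ
  have hJU : ∀ n, (J n).image Prod.fst = U b c Y (F (Q n)) := by
    intro n
    apply Finset.eq_of_subset_of_card_le
    · intro i hi
      rw [Finset.mem_image] at hi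
      obtain ⟨p, hp, rfl⟩ := hi
      simp only [U, Finset.mem_filter, Finset.mem_univ, true_and]
      refine ⟨(hJ1 n p hp).1, p.2, Finset.mem_insert_of_mem (hJ1 n p hp).2, ?_⟩
      intro hc
      apply hJ3 n
      refine hc.mono ?_
      intro x hx
      exact ⟨hx.2 p hp, hx.1⟩
    · rw [hJ2 n]
      exact hF2 _ (hQgood n)
  refine ⟨fun n => F (Q n), Y, J, ?_, ?_, ?_, hJ3, ?_⟩
  · intro n
    have := hℛr _ (hAℛ n)
    exact ⟨this.1, this.2.trans hP₀P⟩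
  · intro n p hp
    rw [Finset.mem_product]
    exact ⟨Finset.mem_univ _, Finset.mem_insert_of_mem (hJ1 n p hp).2⟩
  · intro n p hp
    exact (hJ1 n p hp).1
  · intro n m hnm w hw'
    have h1 : w ∈ Q m := (h𝒜r _ (hTallgood' _ (hQgood m).1) _ (hF1 _ (hQgood m))).2 hw'
    have h2 : w ∈ Q (n + 1) := hQmono (n + 1) m hnm h1
    rw [hQs] at h2
    refine ⟨h2.2.1, ?_⟩
    intro i hi0 hi
    rw [hJU n] at hi
    exact h2.2.2 i hi0 hi

end Pool.Agent.MP_17bc6d_lc
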