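import Mathlib
import Pool.Agent.Lib.MP_17bc6d_lc.Chain

set_option autoImplicit false

open Set

namespace Pool.Agent.Lib.MP_17bc6d_lc

universe u

namespace Sys

variable {k : ℕ} {W V : Type u} [LinearOrder W] [WellFoundedLT W] (S : Sys k W V)

/-- The sets of the chain that are uncountable subsets of one block below `δ` and of `E`. -/
def Sfam (δ : W) (E : Set V) : Set (Set V) :=
  {X | X ∈ S.M δ ∧ X ⊆ E ∧ (∃ α < δ, X ⊆ S.blk α) ∧ ¬ X.Countable}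

/-- The ultrafilters converging to `z`. -/
def UU (z : V) : Set (Ultrafilter (Set V)) :=
  {𝒰 | ∀ E ∈ S.M (S.b z), z ∈ E → S.Sfam (S.b z) E ∈ 𝒰}

/-- The colour sets `C` such that some set of `𝒰` has no `C`-sequence inside `A`. -/
def HH (𝒰 : Ultrafilter (Set V)) (A : Set V) : Set (Set (Fin (k + 1))) :=
  {C | ∃ U ∈ 𝒰, ∀ Y : ℕ → Set V, (∀ n, Y n ∈ U) → ¬ S.CSeq C (fun n => Y n ∩ A)}

/-- `A` meets `𝒰`-almost every set in an uncountable set. -/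
def Gd (𝒰 : Ultrafilter (Set V)) (A : Set V) : Prop := {X : Set V | ¬ (X ∩ A).Countable} ∈ 𝒰

/-- The union of the chain. -/
def Mall : Set (Set V) := {X | ∃ w, S.Cl w X}

/-- The values of `HH` attained at `z`. -/
def Att (z : V) : Set (Set (Set (Fin (k + 1)))) :=
  {h | ∃ 𝒰 ∈ S.UU z, ∃ A ∈ S.Mall, Gd 𝒰 A ∧ S.HH 𝒰 A = h}

variable {S}

theorem HH_down {𝒰 : Ultrafilter (Set V)} {A : Set V} {C D : Set (Fin (k + 1))} (h : C ⊆ D)
    (hD : D ∈ S.HH 𝒰 A) : C ∈ S.HH 𝒰 A := by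
  obtain ⟨U, hU, hUY⟩ := hD
  exact ⟨U, hU, fun Y hY hc => hUY Y hY (CSeq.mono_col S h hc)⟩

theorem HH_mono {𝒰 : Ultrafilter (Set V)} {A A' : Set V} (h : A' ⊆ A) (hA' : Gd 𝒰 A') :
    S.HH 𝒰 A' ⊆ S.HH 𝒰 A := by
  rintro C ⟨U, hU, hUY⟩
  refine ⟨U ∩ {X : Set V | ¬ (X ∩ A').Countable}, Filter.inter_mem hU hA', ?_⟩
  intro Y hY hc
  refine hUY Y (fun n => (hY n).1) ?_
  exact CSeq.mono S hc (fun n => inter_subset_inter_right _ h) (fun n => (hY n).2)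

theorem mem_HH (hG : ¬ S.Good) {𝒰 : Ultrafilter (Set V)} {A A' : Set V} (h : A' ⊆ A)
    (hA' : Gd 𝒰 A') {C : Set (Fin (k + 1))} (hC : ∀ i ∈ C, i ≠ 0 → ∃ z, A' ⊆ S.N i z) :
    C ∈ S.HH 𝒰 A := by
  refine ⟨{X : Set V | ¬ (X ∩ A').Countable}, hA', fun Y hY hc => hG ?_⟩
  have h1 : S.CSeq C (fun n => Y n ∩ A') :=
    CSeq.mono S hc (fun n => inter_subset_inter_right _ h) hY
  apply S.good_of_CSeq_empty (Y := fun n => Y n ∩ A')
  refine ⟨h1.1, h1.2.1, fun m n hmn x hx i hi => ?_⟩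
  obtain ⟨z, hz⟩ := hC i (h1.2.2 m n hmn x hx hi) hi.1
  apply hi.2
  have : S.N i x ∩ (Y m ∩ A') = ∅ := by
    ext y
    simp only [mem_inter_iff, mem_empty_iff_false, iff_false, not_and]
    intro hy _ hyA
    exact S.tri i hi.1 z x y (hz hx.2) (hz hyA) hy
  change (S.N i x ∩ (Y m ∩ A')).Countable
  rw [this]
  exact countable_empty

theorem exists_typ (z : V) (𝒰 : Ultrafilter (Set V)) :
    ∃ T, {X | S.typ z X = T} ∈ 𝒰 := by
  obtain ⟨T, hT⟩ := Ultrafilter.eq_pure_of_finite (𝒰.map (S.typ z))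
  refine ⟨T, ?_⟩
  have : {T} ∈ 𝒰.map (S.typ z) := by
    rw [hT]
    exact rfl
  exact this

theorem typ_not_mem {z : V} (h0 : (univ : Set V) ∈ S.M (S.b z)) {𝒰 : Ultrafilter (Set V)}
    (h𝒰 : 𝒰 ∈ S.UU z) {T : Set (Fin (k + 1))} (hT : {X | S.typ z X = T} ∈ 𝒰) :
    T ∉ S.HH 𝒰 univ := by
  classical
  rintro ⟨U, hU, hUY⟩
  let Q : Set V → Prop := fun E => E ∈ S.M (S.b z) ∧ z ∈ E
  have hex : ∀ E : {E // Q E}, ∃ X, ∃ α, X ∈ U ∧ S.typ z X = T ∧ X ∈ S.M (S.b z) ∧ X ⊆ E.1 ∧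
      α < S.b z ∧ X ⊆ S.blk α ∧ ¬ X.Countable := by
    rintro ⟨E, hE, hzE⟩
    have h1 := Filter.inter_mem (Filter.inter_mem hU hT) (h𝒰 E hE hzE)
    obtain ⟨X, ⟨⟨hX1, hX2⟩, hX3, hX4, ⟨α, hα, hX5⟩, hX6⟩⟩ := Ultrafilter.nonempty_of_mem h1
    exact ⟨X, α, hX1, hX2, hX3, hX4, hα, hX5, hX6⟩
  choose g α hg using hex
  let next : {E // Q E} → {E // Q E} := fun E =>
    ⟨E.1 ∩ ({x | S.typ x (g E) ⊆ T} ∩ {v | α E < S.b v}),
      S.M_inter E.2.1 (S.M_inter (S.M_typ (hg E).2.2.1 T) (S.M_tail (hg E).2.2.2.2.1)),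
      E.2.2, (hg E).2.1.le, (hg E).2.2.2.2.1⟩
  let Es : ℕ → {E // Q E} := fun n => next^[n] ⟨univ, h0, mem_univ z⟩
  have hEs : ∀ n, Es (n + 1) = next (Es n) := fun n => Function.iterate_succ_apply' next n _
  let X : ℕ → Set V := fun n => g (Es n)
  let a : ℕ → W := fun n => α (Es n)
  have hanti : Antitone fun n => (Es n).1 := by
    apply antitone_nat_of_succ_le
    intro n
    rw [hEs]
    exact inter_subset_left
  have hXE : ∀ m n, m < n → X n ⊆ {x | S.typ x (X m) ⊆ T} ∩ {v | a m < S.b v} := by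
    intro m n hmn
    have h1 : X n ⊆ (Es n).1 := (hg (Es n)).2.2.2.1
    have h2 : (Es n).1 ⊆ (Es (m + 1)).1 := hanti hmn
    have h3 : (Es (m + 1)).1 ⊆ {x | S.typ x (X m) ⊆ T} ∩ {v | a m < S.b v} := by
      rw [hEs]
      exact inter_subset_right
    exact h1.trans (h2.trans h3)
  have hXb : ∀ n, X n ⊆ S.blk (a n) := fun n => (hg (Es n)).2.2.2.2.2.1
  have hXu : ∀ n, ¬ (X n).Countable := fun n => (hg (Es n)).2.2.2.2.2.2
  refine hUY X (fun n => (hg (Es n)).1) ?_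
  have hXn : (fun n => X n ∩ univ) = X := by
    funext n
    exact inter_univ _
  rw [hXn]
  refine ⟨⟨a, ?_, hXb⟩, hXu, fun m n hmn x hx => (hXE m n hmn hx).1⟩
  intro m n hmn
  have hne : (X n).Nonempty := by
    by_contra h
    rw [not_nonempty_iff_eq_empty] at h
    exact hXu n (h ▸ countable_empty)
  obtain ⟨x, hx⟩ := hne
  have h1 : a m < S.b x := (hXE m n hmn hx).2
  have h2 : S.b x = a n := hXb n hx
  rw [h2] at h1
  exact h1

/-- The property of `E` obtained from compactness. -/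
def Psi (S : Sys k W V) (z : V) (E : Set V) : Prop :=
  ∀ 𝒲 : Ultrafilter (Set V), S.Sfam (S.b z) E ∈ 𝒲 →
    ∃ h ∈ S.Att z, ∃ T, T ∉ h ∧ {X | S.typ z X = T} ∈ 𝒲 ∧ h ⊆ S.HH 𝒲 univ

theorem Sfam_mono {δ : W} {E E' : Set V} (h : E ⊆ E') : S.Sfam δ E ⊆ S.Sfam δ E' :=
  fun _ hX => ⟨hX.1, hX.2.1.trans h, hX.2.2⟩

theorem Gd_univ {z : V} (h0 : (univ : Set V) ∈ S.M (S.b z)) {𝒰 : Ultrafilter (Set V)}
    (h𝒰 : 𝒰 ∈ S.UU z) : Gd 𝒰 (univ : Set V) := by
  refine Filter.mem_of_superset (h𝒰 univ h0 (mem_univ z)) ?_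
  intro X hX
  change ¬ (X ∩ univ).Countable
  rw [inter_univ]
  exact hX.2.2.2

theorem directed_basic (z : V) : Directed (fun x1 x2 => x1 ⊇ x2)
    (fun E : {E // E ∈ S.M (S.b z) ∧ z ∈ E} =>
      {𝒲 : Ultrafilter (Set V) | S.Sfam (S.b z) E.1 ∈ 𝒲}) := by
  rintro ⟨E, hE, hzE⟩ ⟨E', hE', hzE'⟩
  refine ⟨⟨E ∩ E', S.M_inter hE hE', hzE, hzE'⟩, ?_, ?_⟩
  · intro 𝒲 h𝒲
    exact Filter.mem_of_superset h𝒲 (Sfam_mono inter_subset_left)
  · intro 𝒲 h𝒲
    exact Filter.mem_of_superset h𝒲 (Sfam_mono inter_subset_right)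

theorem exists_Psi {z : V} (h0 : (univ : Set V) ∈ S.M (S.b z)) :
    ∃ E ∈ S.M (S.b z), z ∈ E ∧ S.Psi z E := by
  classical
  let P : Set (Set (Set V)) := {U | ∃ h ∈ S.Att z, ∃ T, T ∉ h ∧ (∀ X ∈ U, S.typ z X = T) ∧
    ∀ C ∈ h, ∀ Y : ℕ → Set V, (∀ n, Y n ∈ U) → ¬ S.CSeq C (fun n => Y n ∩ univ)}
  have hP : ∀ 𝒰 ∈ S.UU z, ∃ U ∈ P, U ∈ 𝒰 := by
    intro 𝒰 h𝒰
    obtain ⟨T, hT⟩ := exists_typ (S := S) z 𝒰
    have hT' := typ_not_mem h0 h𝒰 hT
    have hw : ∀ C : Set (Fin (k + 1)), ∃ U ∈ 𝒰, C ∈ S.HH 𝒰 univ →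
        ∀ Y : ℕ → Set V, (∀ n, Y n ∈ U) → ¬ S.CSeq C (fun n => Y n ∩ univ) := by
      intro C
      by_cases hC : C ∈ S.HH 𝒰 univ
      · obtain ⟨U, hU, hUY⟩ := hC
        exact ⟨U, hU, fun _ => hUY⟩
      · exact ⟨univ, Filter.univ_mem, fun h => absurd h hC⟩
    choose UC hUC hUC' using hw
    refine ⟨{X | S.typ z X = T} ∩ ⋂ C ∈ (univ : Set (Set (Fin (k + 1)))), UC C, ?_, ?_⟩
    · refine ⟨S.HH 𝒰 univ, ⟨𝒰, h𝒰, univ, ⟨S.b z, Cl.univ⟩, Gd_univ h0 h𝒰, rfl⟩, T, hT',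
        fun X hX => hX.1, fun C hC Y hY => ?_⟩
      refine hUC' C hC Y fun n => ?_
      have h1 := (hY n).2
      rw [mem_iInter₂] at h1
      exact h1 C (mem_univ C)
    · refine Filter.inter_mem hT ?_
      exact (Filter.biInter_mem (Set.toFinite _)).2 fun C _ => hUC C
  have : Nonempty {E // E ∈ S.M (S.b z) ∧ z ∈ E} := ⟨⟨univ, h0, mem_univ z⟩⟩
  obtain ⟨⟨E, hE, hzE⟩, hEO⟩ := exists_subset_nhds_of_isCompact' (directed_basic (S := S) z)
    (fun E => (ultrafilter_isClosed_basic _).isCompact) (fun E => ultrafilter_isClosed_basic _)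
    (U := ⋃ U ∈ P, {𝒲 : Ultrafilter (Set V) | U ∈ 𝒲}) (by
      intro 𝒰 h𝒰
      have h𝒰' : 𝒰 ∈ S.UU z := by
        intro E hE hzE
        exact mem_iInter.1 h𝒰 ⟨E, hE, hzE⟩
      obtain ⟨U, hUP, hU⟩ := hP 𝒰 h𝒰'
      refine IsOpen.mem_nhds ?_ (mem_biUnion hUP hU)
      exact isOpen_biUnion fun U _ => ultrafilter_isOpen_basic U)
  refine ⟨E, hE, hzE, fun 𝒲 h𝒲 => ?_⟩
  obtain ⟨U, ⟨h, hh, T, hT, hUT, hUC⟩, hU⟩ := mem_iUnion₂.1 (hEO h𝒲)
  exact ⟨h, hh, T, hT, Filter.mem_of_superset hU hUT, fun C hC => ⟨U, hU, hUC C hC⟩⟩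

theorem UU_nonempty {z : V} (h0 : (univ : Set V) ∈ S.M (S.b z)) (hz : S.Star z) :
    (S.UU z).Nonempty := by
  classical
  have : Nonempty {E // E ∈ S.M (S.b z) ∧ z ∈ E} := ⟨⟨univ, h0, mem_univ z⟩⟩
  obtain ⟨𝒰, h𝒰⟩ := IsCompact.nonempty_iInter_of_directed_nonempty_isCompact_isClosed _
    (directed_basic (S := S) z) (by
      rintro ⟨E, hE, hzE⟩
      obtain ⟨α, hα, hEα⟩ := hz E hE hzE
      refine ⟨(pure (E ∩ S.blk α) : Ultrafilter (Set V)), ?_⟩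
      change (E ∩ S.blk α) ∈ S.Sfam (S.b z) E
      exact ⟨S.M_inter hE (S.M_blk hα), inter_subset_left, ⟨α, hα, inter_subset_right⟩, hEα⟩)
    (fun E => (ultrafilter_isClosed_basic _).isCompact) (fun E => ultrafilter_isClosed_basic _)
  exact ⟨𝒰, fun E hE hzE => mem_iInter.1 h𝒰 ⟨E, hE, hzE⟩⟩

/-- The data attached to a late point. -/
def RR (S : Sys k W V) (z : V) (E : Set V) (h : Set (Set (Set (Fin (k + 1))))) : Prop :=
  E ∈ S.M (S.b z) ∧ z ∈ E ∧ S.Psi z E ∧ S.Att z = h ∧ h.Nonempty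

theorem exists_pressing (S : Sys k W V) :
    ∃ E h, ∀ w, ∃ z, w < S.b z ∧ S.RR z E h := by
  classical
  by_contra hcon
  push Not at hcon
  choose G hG using hcon
  have hB : ∀ E, ∃ w, ∀ h, G E h < w := by
    intro E
    obtain ⟨w, hw⟩ := S.exists_bound (countable_range (G E))
    exact ⟨w, fun h => hw _ (mem_range_self h)⟩
  choose B hB using hB
  have hne : Nonempty W := by
    by_contra h
    rw [not_nonempty_iff] at h
    exact S.unc (Set.toFinite _).countable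
  obtain ⟨z, hz, hzS, hzG⟩ := S.exists_star B hne.some
  have h0 : (univ : Set V) ∈ S.M (S.b z) := S.M_univ hz
  obtain ⟨E, hE, hzE, hPsi⟩ := exists_Psi h0
  obtain ⟨𝒰, h𝒰⟩ := UU_nonempty h0 hzS
  have h1 : S.RR z E (S.Att z) :=
    ⟨hE, hzE, hPsi, rfl, ⟨S.HH 𝒰 univ, 𝒰, h𝒰, univ, ⟨S.b z, Cl.univ⟩, Gd_univ h0 h𝒰, rfl⟩⟩
  exact hG E (S.Att z) z ((hB E (S.Att z)).trans (hzG E hE)) h1

/-- The main theorem for systems. -/
theorem good (S : Sys k W V) : S.Good := by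
  classical
  by_contra hG
  obtain ⟨E, h, hEh⟩ := S.exists_pressing
  have hne : Nonempty W := by
    by_contra h
    rw [not_nonempty_iff] at h
    exact S.unc (Set.toFinite _).countable
  obtain ⟨z, -, hzE, hzE', -, hzA, hhne⟩ := hEh hne.some
  obtain ⟨h₀, hmin⟩ := (Set.toFinite h).exists_minimal hhne
  have hh₀ : h₀ ∈ S.Att z := by
    rw [hzA]
    exact hmin.1
  obtain ⟨𝒰, h𝒰, A, hA, hAg, hAh⟩ := hh₀
  have key : ∀ p : ℕ, ∃ C : Finset (Fin (k + 1)), C.card = p ∧ (∀ i ∈ C, i ≠ 0) ∧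
      ∃ A' ∈ S.Mall, A' ⊆ A ∧ Gd 𝒰 A' ∧ ∀ i ∈ C, ∃ y, A' ⊆ S.N i y := by
    intro p
    induction p with
    | zero => exact ⟨∅, rfl, by simp, A, hA, Subset.rfl, hAg, by simp⟩
    | succ p ih =>
      obtain ⟨C, hCp, hC0, A', hA', hA'A, hA'g, hCA⟩ := ih
      have hCh : (C : Set (Fin (k + 1))) ∈ h₀ := by
        rw [← hAh]
        exact mem_HH hG hA'A hA'g fun i hi _ => hCA i hi
      have hA'h : S.HH 𝒰 A' = h₀ := by
        have h1 : S.HH 𝒰 A' ⊆ h₀ := by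
          rw [← hAh]
          exact HH_mono hA'A hA'g
        have h2 : S.HH 𝒰 A' ∈ h := by
          rw [← hzA]
          exact ⟨𝒰, h𝒰, A', hA', hA'g, rfl⟩
        exact Subset.antisymm h1 (hmin.2 h2 h1)
      obtain ⟨w', hw'⟩ := hA'
      obtain ⟨z', hz', hzE2, hzE2', hPsi, hzA', -⟩ := hEh (max (S.b z) w')
      have hbz : S.b z < S.b z' := (le_max_left _ _).trans_lt hz'
      have hw'z : w' < S.b z' := (le_max_right _ _).trans_lt hz'
      have hAM : A' ∈ S.M (S.b z') := ⟨w', hw'z, hw'⟩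
      obtain ⟨h', hh', T, hT, hTU, hh'H⟩ := hPsi (𝒰.map fun X => X ∩ A') (by
        change (fun X => X ∩ A') ⁻¹' _ ∈ 𝒰
        refine Filter.mem_of_superset (Filter.inter_mem (h𝒰 E hzE hzE') hA'g) ?_
        rintro X ⟨⟨hX1, hX2, ⟨α, hα, hX3⟩, _⟩, hX5⟩
        exact ⟨S.M_inter (S.M_mono hbz.le hX1) hAM, inter_subset_left.trans hX2,
          ⟨α, hα.trans hbz, inter_subset_left.trans hX3⟩, hX5⟩)
      have hsub : S.HH (𝒰.map fun X => X ∩ A') univ ⊆ S.HH 𝒰 A' := by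
        rintro C' ⟨U, hU, hUY⟩
        refine ⟨_, hU, fun Y hY hc => ?_⟩
        refine hUY (fun n => Y n ∩ A') hY ?_
        have : (fun n => Y n ∩ A' ∩ univ) = fun n => Y n ∩ A' := by
          funext n
          exact inter_univ _
        rw [this]
        exact hc
      have hh'0 : h' = h₀ := by
        have h1 : h' ⊆ h₀ := by
          rw [← hA'h]
          exact hh'H.trans hsub
        have h2 : h' ∈ h := by
          rw [← hzA']
          exact hh'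
        exact Subset.antisymm h1 (hmin.2 h2 h1)
      rw [hh'0] at hT
      have hTC : ¬ T ⊆ (C : Set (Fin (k + 1))) := by
        intro hcon
        apply hT
        rw [← hAh] at hCh ⊢
        exact HH_down hcon hCh
      obtain ⟨i, hiT, hiC⟩ := not_subset.1 hTC
      have hTU' : {X | S.typ z' (X ∩ A') = T} ∈ 𝒰 := hTU
      have hi0 : i ≠ 0 := by
        obtain ⟨X, hX⟩ := Ultrafilter.nonempty_of_mem hTU'
        have : i ∈ S.typ z' (X ∩ A') := by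
          rw [show S.typ z' (X ∩ A') = T from hX]
          exact hiT
        exact this.1
      refine ⟨insert i C, ?_, ?_, S.N i z' ∩ A', ?_, ?_, ?_, ?_⟩
      · rw [Finset.card_insert_of_notMem (by simpa using hiC), hCp]
      · intro j hj
        rw [Finset.mem_insert] at hj
        rcases hj with rfl | hj
        · exact hi0
        · exact hC0 j hj
      · exact ⟨max (S.r z') w', Cl.inter _ _ (Cl.nbr _ _ (le_max_left _ _))
          (Cl.mono S (le_max_right _ _) hw')⟩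
      · exact inter_subset_right.trans hA'A
      · refine Filter.mem_of_superset hTU' ?_
        intro X hX
        have h1 : i ∈ S.typ z' (X ∩ A') := by
          rw [show S.typ z' (X ∩ A') = T from hX]
          exact hiT
        have h2 := h1.2
        change ¬ (X ∩ (S.N i z' ∩ A')).Countable
        rwa [inter_left_comm] 
      · intro j hj
        rw [Finset.mem_insert] at hj
        rcases hj with rfl | hj
        · exact ⟨z', inter_subset_left⟩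
        · obtain ⟨y, hy⟩ := hCA j hj
          exact ⟨y, inter_subset_right.trans hy⟩
  obtain ⟨C, hC, hC0, -⟩ := key (k + 1)
  have h1 : C = Finset.univ := by
    apply Finset.eq_univ_of_card
    rw [hC, Fintype.card_fin]
  exact hC0 0 (by rw [h1]; exact Finset.mem_univ _) rfl

end Sys

end Pool.Agent.Lib.MP_17bc6d_lc
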