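import Mathlib
import Pool.Agent.Lib.MP_17bc6d_lc.Ultra

set_option autoImplicit false

open Set Cardinal

namespace Pool.Agent.Lib.MP_17bc6d_lc

/-- `ω₁`. -/
noncomputable abbrev o1 : Ordinal.{0} := (Cardinal.aleph 1).ord

/-- The ordinals below `ω₁`. -/
abbrev W1 : Type 1 := Set.Iio o1

theorem o1_pos : 0 < o1 := by
  have : (0 : Ordinal.{0}) < (Cardinal.aleph 1).ord := by
    rw [Cardinal.lt_ord]
    simp
  exact this

theorem countable_Iic_W1 (w : W1) : (Iic w).Countable := by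
  have h1 : (w : Ordinal.{0}) + 1 < o1 ∨ (w : Ordinal.{0}) + 1 ≤ o1 := Or.inr (Order.succ_le_of_lt w.2)
  have h2 : (Set.Iic (w : Ordinal.{0})).Countable := by
    have h3 : Set.Iic (w : Ordinal.{0}) = insert (w : Ordinal.{0}) (Set.Iio (w : Ordinal.{0})) := by
      ext x
      simp [le_iff_eq_or_lt]
    rw [h3]
    apply Countable.insert
    have h4 : #(Set.Iio (w : Ordinal.{0})) ≤ ℵ₀ := by
      rw [Cardinal.mk_Iio_ordinal]
      have h5 : (w : Ordinal.{0}).card < Cardinal.aleph 1 := Cardinal.lt_ord.1 w.2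
      rw [← Cardinal.succ_aleph0] at h5
      have h6 := Order.lt_succ_iff.1 h5
      rw [← Cardinal.lift_aleph0.{1, 0}]
      exact Cardinal.lift_le.2 h6
    exact (Cardinal.le_aleph0_iff_set_countable).1 h4
  have h3 : (Subtype.val '' (Iic w)).Countable := by
    refine h2.mono ?_
    rintro _ ⟨x, hx, rfl⟩
    exact hx
  exact countable_of_injective_of_countable_image Subtype.val_injective.injOn h3

theorem not_countable_W1 : ¬ (univ : Set W1).Countable := by
  intro h
  rw [Set.countable_univ_iff] at h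
  have h1 : #W1 ≤ ℵ₀ := Cardinal.mk_le_aleph0_iff.2 h
  rw [Cardinal.mk_Iio_ordinal, Cardinal.card_ord, ← Cardinal.lift_aleph0.{1, 0},
    Cardinal.lift_le] at h1
  exact absurd h1 (not_le.2 (by rw [← Cardinal.succ_aleph0]; exact Order.lt_succ _))

/-- Any uncountable subset of `W1` contains a strictly increasing `W1`-sequence. -/
theorem exists_strictMono (K : Set W1) (hK : ¬ K.Countable) :
    ∃ e : W1 → W1, StrictMono e ∧ ∀ w, e w ∈ K := by
  classical
  have hbound : ∀ A : Set W1, A.Countable → ∃ κ ∈ K, ∀ a ∈ A, a < κ := by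
    intro A hA
    by_contra hcon
    push Not at hcon
    apply hK
    refine (hA.biUnion (t := fun a _ => Iic a) fun a _ => countable_Iic_W1 a).mono ?_
    intro κ hκ
    obtain ⟨a, ha, haκ⟩ := hcon κ hκ
    exact mem_biUnion ha haκ
  have hstep : ∀ (w : W1) (f : ∀ v, v < w → W1), ∃ κ ∈ K, ∀ v (hv : v < w), f v hv < κ := by
    intro w f
    obtain ⟨κ, hκ, hκ'⟩ := hbound (range fun v : Iio w => f v.1 v.2) (by
      have : Countable (Iio w) := ((countable_Iic_W1 w).mono Iio_subset_Iic_self).to_subtype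
      exact countable_range _)
    exact ⟨κ, hκ, fun v hv => hκ' _ ⟨⟨v, hv⟩, rfl⟩⟩
  choose g hgK hg using hstep
  let e : W1 → W1 := (wellFounded_lt (α := W1)).fix g
  have he : ∀ w, e w = g w (fun v _ => e v) := fun w => WellFounded.fix_eq _ _ _
  refine ⟨e, ?_, ?_⟩
  · intro v w hvw
    rw [he w]
    exact hg w (fun v _ => e v) v hvw
  · intro w
    rw [he w]
    exact hgK _ _

/-- The point of `ω₁²` with coordinates `p`. -/
noncomputable def pt (p : W1 × W1) : Ordinal.{0} := o1 * (p.1 : Ordinal.{0}) + (p.2 : Ordinal.{0})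

theorem pt_lt_of_fst {p q : W1 × W1} (h : p.1 < q.1) : pt p < pt q := by
  have h1 : pt p < o1 * Order.succ (p.1 : Ordinal.{0}) := by
    rw [Ordinal.mul_succ]
    exact (add_lt_add_iff_left _).2 p.2.2
  have h3 : Order.succ (p.1 : Ordinal.{0}) ≤ (q.1 : Ordinal.{0}) := Order.succ_le_of_lt h
  have h2 : o1 * Order.succ (p.1 : Ordinal.{0}) ≤ o1 * (q.1 : Ordinal.{0}) :=
    mul_le_mul_right h3 _
  exact h1.trans_le (h2.trans le_self_add)

theorem pt_lt_of_snd {p q : W1 × W1} (h : p.1 = q.1) (h2 : p.2 < q.2) : pt p < pt q := by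
  unfold pt
  rw [h]
  exact (add_lt_add_iff_left _).2 h2

theorem pt_inj {p q : W1 × W1} (h : pt p = pt q) : p = q := by
  rcases lt_trichotomy p.1 q.1 with h1 | h1 | h1
  · exact absurd h (pt_lt_of_fst h1).ne
  · rcases lt_trichotomy p.2 q.2 with h2 | h2 | h2
    · exact absurd h (pt_lt_of_snd h1 h2).ne
    · exact Prod.ext h1 h2
    · exact absurd h (pt_lt_of_snd h1.symm h2).ne'
  · exact absurd h (pt_lt_of_fst h1).ne'

theorem pt_lt (p : W1 × W1) : pt p < o1 * o1 := by
  have h1 : pt p < o1 * Order.succ (p.1 : Ordinal.{0}) := by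
    rw [Ordinal.mul_succ]
    exact (add_lt_add_iff_left _).2 p.2.2
  exact h1.trans_le (mul_le_mul_right (Order.succ_le_of_lt p.1.2) _)

/-- Symmetrised colouring. -/
noncomputable def cs {k : ℕ} (c : Ordinal.{0} → Ordinal.{0} → Fin (k + 1)) (a b : Ordinal.{0}) :
    Fin (k + 1) :=
  if a < b then c a b else if b < a then c b a else 0

theorem cs_symm {k : ℕ} (c : Ordinal.{0} → Ordinal.{0} → Fin (k + 1)) (a b : Ordinal.{0}) :
    cs c a b = cs c b a := by
  unfold cs
  rcases lt_trichotomy a b with h | h | h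
  · rw [if_pos h, if_neg h.not_gt, if_pos h]
  · subst h; rfl
  · rw [if_neg h.not_gt, if_pos h, if_pos h]

theorem cs_of_lt {k : ℕ} (c : Ordinal.{0} → Ordinal.{0} → Fin (k + 1)) {a b : Ordinal.{0}}
    (h : a < b) : cs c a b = c a b := if_pos h

theorem cs_tri {k : ℕ} (c : Ordinal.{0} → Ordinal.{0} → Fin (k + 1)) (B : Ordinal.{0})
    (hc : ¬ ∃ i : Fin (k + 1), i ≠ 0 ∧ ∃ a b d : Ordinal.{0}, a < b ∧ b < d ∧ d < B ∧
      c a b = i ∧ c a d = i ∧ c b d = i)
    (i : Fin (k + 1)) (hi : i ≠ 0) (x y z : Ordinal.{0}) (hx : x < B) (hy : y < B) (hz : z < B)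
    (h1 : cs c x y = i) (h2 : cs c x z = i) (h3 : cs c y z = i) : False := by
  have hne : ∀ a b : Ordinal.{0}, cs c a b = i → a ≠ b := by
    rintro a b hab rfl
    unfold cs at hab
    rw [if_neg (lt_irrefl a), if_neg (lt_irrefl a)] at hab
    exact hi hab.symm
  -- sorted triples
  have key : ∀ a b d : Ordinal.{0}, d < B → a < b → b < d → cs c a b = i → cs c a d = i →
      cs c b d = i → False := by
    intro a b d hd hab hbd e1 e2 e3
    rw [cs_of_lt c hab] at e1
    rw [cs_of_lt c (hab.trans hbd)] at e2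
    rw [cs_of_lt c hbd] at e3
    exact hc ⟨i, hi, a, b, d, hab, hbd, hd, e1, e2, e3⟩
  have h1' := h1
  have h2' := h2
  have h3' := h3
  rw [cs_symm] at h1' h2' h3'
  rcases lt_or_gt_of_ne (hne _ _ h1) with hxy | hxy
  · rcases lt_or_gt_of_ne (hne _ _ h3) with hyz | hyz
    · exact key x y z hz hxy hyz h1 h2 h3
    · rcases lt_or_gt_of_ne (hne _ _ h2) with hxz | hxz
      · exact key x z y hy hxz hyz h2 h1 h3'
      · exact key z x y hy hxz hxy h2' h3' h1
  · rcases lt_or_gt_of_ne (hne _ _ h2) with hxz | hxz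
    · exact key y x z hz hxy hxz h1' h3 h2
    · rcases lt_or_gt_of_ne (hne _ _ h3) with hyz | hyz
      · exact key y z x hx hyz hxz h3 h1' h2'
      · exact key z y x hx hyz hxy h3' h2' h1'

/-- The theorem for `ω₁²`, in terms of sequences of uncountable subsets of blocks. -/
theorem exists_blocks {k : ℕ} (c : Ordinal.{0} → Ordinal.{0} → Fin (k + 1))
    (hc : ¬ ∃ i : Fin (k + 1), i ≠ 0 ∧ ∃ a b d : Ordinal.{0}, a < b ∧ b < d ∧ d < o1 * o1 ∧
      c a b = i ∧ c a d = i ∧ c b d = i) :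
    ∃ (a : ℕ → W1) (e : ℕ → W1 → W1), StrictMono a ∧ (∀ n, StrictMono (e n)) ∧
      ∀ m n v w, cs c (pt (a m, e m v)) (pt (a n, e n w)) = 0 := by
  classical
  let c0 : W1 × W1 → W1 × W1 → Fin (k + 1) := fun p q => cs c (pt p) (pt q)
  have c0symm : ∀ p q, c0 p q = c0 q p := fun p q => cs_symm c _ _
  have c0diag : ∀ p, c0 p p = 0 := by
    intro p
    change cs c (pt p) (pt p) = 0
    unfold cs
    rw [if_neg (lt_irrefl _), if_neg (lt_irrefl _)]
  have c0tri : ∀ i, i ≠ 0 → ∀ x y z, c0 x y = i → c0 x z = i → c0 y z = i → False :=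
    fun i hi x y z h1 h2 h3 =>
      cs_tri c (o1 * o1) hc i hi (pt x) (pt y) (pt z) (pt_lt x) (pt_lt y) (pt_lt z) h1 h2 h3
  have hblkW : ∀ w : W1, ¬ {p : W1 × W1 | p.1 = w}.Countable := by
    intro w h
    apply not_countable_W1
    have h1 : (Prod.snd '' {p : W1 × W1 | p.1 = w}).Countable := h.image _
    refine h1.mono ?_
    intro v _
    exact ⟨(w, v), rfl, rfl⟩
  choose H hHsub hHunc hHhom using fun w : W1 =>
    exists_homog c0 c0symm c0diag c0tri {p : W1 × W1 | p.1 = w} (hblkW w)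
  let V1 : Type 1 := {p : W1 × W1 // p ∈ H p.1}
  let S : Sys k W1 V1 :=
    { b := fun p => p.1.1
      r := fun p => max p.1.1 p.1.2
      c := fun p q => c0 p.1 q.1
      symm := fun p q => c0symm _ _
      tri := fun i hi x y z h1 h2 h3 => c0tri i hi _ _ _ h1 h2 h3
      hb := by
        intro x y hxy
        refine hHhom x.1.1 x.1 x.2 y.1 ?_
        have hxy' : x.1.1 = y.1.1 := hxy
        rw [hxy']
        exact y.2
      cnt := countable_Iic_W1
      unc := not_countable_W1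
      cr := by
        intro w
        have h1 : (Iic w ×ˢ Iic w).Countable := (countable_Iic_W1 w).prod (countable_Iic_W1 w)
        have h2 : ((fun p : V1 => p.1) '' {v : V1 | max v.1.1 v.1.2 ≤ w}).Countable := by
          refine h1.mono ?_
          rintro _ ⟨v, hv, rfl⟩
          have hv' : max v.1.1 v.1.2 ≤ w := hv
          exact ⟨(max_le_iff.1 hv').1, (max_le_iff.1 hv').2⟩
        exact countable_of_injective_of_countable_image Subtype.val_injective.injOn h2
      hblk := by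
        intro w hcount
        apply hHunc w
        have h1 : ((fun p : V1 => p.1) '' {v : V1 | v.1.1 = w}).Countable := hcount.image _
        refine h1.mono ?_
        intro p hp
        have hpw : p.1 = w := hHsub w hp
        exact ⟨⟨p, by rw [hpw]; exact hp⟩, hpw, rfl⟩ }
  obtain ⟨a, G, ha, hGb, hGu, hGh⟩ := S.good
  have hK : ∀ n, ¬ ((fun v : V1 => v.1.2) '' G n).Countable := by
    intro n hcount
    apply hGu n
    refine countable_of_injective_of_countable_image ?_ hcount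
    intro x hx y hy hxy
    have h1 : x.1.1 = a n := hGb n hx
    have h2 : y.1.1 = a n := hGb n hy
    exact Subtype.ext (Prod.ext (h1.trans h2.symm) hxy)
  choose e he heK using fun n => exists_strictMono _ (hK n)
  refine ⟨a, e, ha, he, fun m n v w => ?_⟩
  obtain ⟨x, hx, hxe⟩ := heK m v
  obtain ⟨y, hy, hye⟩ := heK n w
  have h1 : x.1 = (a m, e m v) := Prod.ext (hGb m hx) hxe
  have h2 : y.1 = (a n, e n w) := Prod.ext (hGb n hy) hye
  have h3 : cs c (pt x.1) (pt y.1) = 0 := hGh m n x hx y hy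
  rwa [h1, h2] at h3

/-- The partition relation `ω₁² → (ω₁ · ω, 3, …, 3)²`. -/
theorem main (k : ℕ) (c : Ordinal.{0} → Ordinal.{0} → Fin (k + 1)) :
    (∃ f : Ordinal.{0} → Ordinal.{0},
        StrictMonoOn f (Set.Iio (o1 * Ordinal.omega0)) ∧
        (∀ β : Ordinal.{0}, β < o1 * Ordinal.omega0 → f β < o1 * o1) ∧
        (∀ β γ : Ordinal.{0}, β < γ → γ < o1 * Ordinal.omega0 → c (f β) (f γ) = 0)) ∨
    (∃ i : Fin (k + 1), i ≠ 0 ∧
      ∃ a b d : Ordinal.{0}, a < b ∧ b < d ∧ d < o1 * o1 ∧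
        c a b = i ∧ c a d = i ∧ c b d = i) := by
  classical
  by_cases hc : ∃ i : Fin (k + 1), i ≠ 0 ∧ ∃ a b d : Ordinal.{0}, a < b ∧ b < d ∧ d < o1 * o1 ∧
      c a b = i ∧ c a d = i ∧ c b d = i
  · exact Or.inr hc
  left
  obtain ⟨a, e, ha, he, hae⟩ := exists_blocks c hc
  have hdiv : ∀ β : Ordinal.{0}, β < o1 * Ordinal.omega0 → ∃ n : ℕ, β / o1 = n := by
    intro β hβ
    have h1 : β / o1 < Ordinal.omega0 := (Ordinal.lt_mul_iff_div_lt o1_pos.ne').1 hβ
    exact Ordinal.lt_omega0.1 h1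
  have hmod : ∀ β : Ordinal.{0}, β % o1 < o1 := fun β => Ordinal.mod_lt β o1_pos.ne'
  let q : Ordinal.{0} → ℕ := fun β => if h : β < o1 * Ordinal.omega0 then (hdiv β h).choose else 0
  have hq : ∀ β, β < o1 * Ordinal.omega0 → β / o1 = q β := by
    intro β hβ
    simp only [q, dif_pos hβ]
    exact (hdiv β hβ).choose_spec
  let P : Ordinal.{0} → W1 × W1 := fun β => (a (q β), e (q β) ⟨β % o1, hmod β⟩)
  have hlt : ∀ β γ : Ordinal.{0}, β < γ → γ < o1 * Ordinal.omega0 → pt (P β) < pt (P γ) := by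
    intro β γ hβγ hγ
    have hβ : β < o1 * Ordinal.omega0 := hβγ.trans hγ
    have h1 : β / o1 ≤ γ / o1 := Ordinal.div_le_left hβγ.le _
    rw [hq β hβ, hq γ hγ] at h1
    have h2 : q β ≤ q γ := by exact_mod_cast h1
    rcases h2.lt_or_eq with h3 | h3
    · exact pt_lt_of_fst (ha h3)
    · have h4 : β % o1 < γ % o1 := by
        have e1 := Ordinal.div_add_mod β o1
        have e2 := Ordinal.div_add_mod γ o1
        rw [hq β hβ] at e1
        rw [hq γ hγ, ← h3] at e2
        rw [← e1, ← e2] at hβγ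
        have := (add_lt_add_iff_left _).1 hβγ
        exact this
      refine pt_lt_of_snd ?_ ?_
      · change a (q β) = a (q γ)
        rw [h3]
      · change e (q β) ⟨β % o1, hmod β⟩ < e (q γ) ⟨γ % o1, hmod γ⟩
        rw [← h3]
        exact he _ h4
  refine ⟨fun β => pt (P β), ?_, ?_, ?_⟩
  · intro β _ γ hγ hβγ
    exact hlt β γ hβγ hγ
  · intro β _
    exact pt_lt _
  · intro β γ hβγ hγ
    have h1 := hae (q β) (q γ) ⟨β % o1, hmod β⟩ ⟨γ % o1, hmod γ⟩
    have h2 := hlt β γ hβγ hγ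
    rw [cs_of_lt c h2] at h1
    exact h1

end Pool.Agent.Lib.MP_17bc6d_lc
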